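import Pool.Agent.H41.TC.Cross

/-! Closure of a set of terminals through the non-terminals; interiors of up-sets; costs. -/

namespace Pool.H41.TC

open Finset Classical

section Int

variable {α : Type}

/-- one-interior of a property -/
def Dd (P : Finset α → Prop) : Finset α → Prop := fun B => P B ∧ ∀ q ∈ B, P (B.erase q)

theorem mono_Dd (P : Finset α → Prop) (h : Mono P) : Mono (Dd P) := by
  rintro B C hBC ⟨h1, h2⟩
  refine ⟨h B C hBC h1, fun q hq => ?_⟩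
  by_cases hqB : q ∈ B
  · exact h _ _ (erase_subset_erase q hBC) (h2 q hqB)
  · refine h B _ ?_ h1
    intro x hx
    rw [mem_erase]
    exact ⟨fun e => hqB (e ▸ hx), hBC hx⟩

theorem crs_Dd1 (A : Finset α) (τ : ℕ) (hτ : 1 ≤ τ) (P Q R : Finset α → Prop)
    (h : Crs A τ P Q R) : Crs A (τ + 1) (Dd P) Q R := by
  rintro B C D hB hC hD ⟨h1, h2⟩ h3 h4
  have h5 := h B C D hB hC hD h1 h3 h4
  obtain ⟨q, hq⟩ := card_pos.1 (show 0 < (B ∩ C ∩ D).card by omega)
  have hqB : q ∈ B := (mem_inter.1 (mem_inter.1 hq).1).1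
  have h6 := h (B.erase q) C D ((erase_subset q B).trans hB) hC hD (h2 q hqB) h3 h4
  have e : B.erase q ∩ C ∩ D = (B ∩ C ∩ D).erase q := by
    rw [erase_inter, erase_inter]
  rw [e, card_erase_of_mem hq] at h6
  omega

theorem crs_rot (A : Finset α) (τ : ℕ) (P Q R : Finset α → Prop)
    (h : Crs A τ P Q R) : Crs A τ Q R P := by
  intro B C D hB hC hD h1 h2 h3
  have := h D B C hD hB hC h3 h1 h2
  have e : D ∩ B ∩ C = B ∩ C ∩ D := by
    ext x; simp only [mem_inter]; tauto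
  rwa [e] at this

theorem crs_Dd3 (A : Finset α) (τ : ℕ) (hτ : 1 ≤ τ) (P : Finset α → Prop)
    (h : Crs A τ P P P) : Crs A (τ + 3) (Dd P) (Dd P) (Dd P) := by
  have h1 := crs_rot _ _ _ _ _ (crs_Dd1 A τ hτ _ _ _ h)
  have h2 := crs_rot _ _ _ _ _ (crs_Dd1 A (τ + 1) (by omega) _ _ _ h1)
  have h3 := crs_rot _ _ _ _ _ (crs_Dd1 A (τ + 2) (by omega) _ _ _ h2)
  exact h3

theorem iter_all (A : Finset α) (τ : ℕ) (hτ : 1 ≤ τ) (P : Finset α → Prop) (hm : Mono P)
    (h : Crs A τ P P P) (j : ℕ) :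
    Mono (Dd^[j] P) ∧ Crs A (τ + 3 * j) (Dd^[j] P) (Dd^[j] P) (Dd^[j] P) := by
  induction j with
  | zero => exact ⟨hm, h⟩
  | succ j ih =>
    rw [Function.iterate_succ_apply']
    refine ⟨mono_Dd _ ih.1, ?_⟩
    have := crs_Dd3 A (τ + 3 * j) (by omega) _ ih.2
    have e : τ + 3 * (j + 1) = τ + 3 * j + 3 := by ring
    rw [e]; exact this

theorem cnt_iter (A : Finset α) (t : ℕ) (ht : 1 ≤ t) (P : Finset α → Prop) (hm : Mono P)
    (h : Crs A (3 * t) P P P) (j : ℕ) :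
    (cnt A (Dd^[j] P) : ℝ) * 4 ^ (t + j) ≤ 2 ^ A.card := by
  obtain ⟨h1, h2⟩ := iter_all A (3 * t) (by omega) P hm h j
  have h3 := cross3 A _ _ _ _ h1 h1 h1 h2
  have e1 : ((cnt A (Dd^[j] P) : ℝ) * 4 ^ (t + j)) ^ 3
      = (4 : ℝ) ^ (3 * t + 3 * j) *
        ((cnt A (Dd^[j] P) : ℝ) * cnt A (Dd^[j] P) * cnt A (Dd^[j] P)) := by
    have : (4 : ℝ) ^ (3 * t + 3 * j) = (4 ^ (t + j)) ^ 3 := by rw [← pow_mul]; ring_nf
    rw [this]; ring
  have e2 : ((2 : ℝ) ^ A.card) ^ 3 = 8 ^ A.card := by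
    rw [← pow_mul, mul_comm, pow_mul]; norm_num
  have h4 : ((cnt A (Dd^[j] P) : ℝ) * 4 ^ (t + j)) ^ 3 ≤ ((2 : ℝ) ^ A.card) ^ 3 := by
    rw [e1, e2]; exact h3
  exact le_of_pow_le_pow_left₀ (by norm_num) (by positivity) h4

theorem rep (P : Finset α → Prop) (c : ℕ) : ∀ B, ¬ (Dd^[c] P) B →
    ∃ Q, Q ⊆ B ∧ Q.card ≤ c ∧ ¬ P (B \ Q) := by
  induction c with
  | zero =>
    intro B hB
    exact ⟨∅, empty_subset _, by simp, by simpa using hB⟩
  | succ c ih =>
    intro B hB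
    rw [Function.iterate_succ_apply'] at hB
    by_cases h1 : (Dd^[c] P) B
    · have h2 : ∃ q ∈ B, ¬ (Dd^[c] P) (B.erase q) := by
        by_contra hne
        push Not at hne
        exact hB ⟨h1, hne⟩
      obtain ⟨q, hq, h3⟩ := h2
      obtain ⟨Q, hQ, hc, hP⟩ := ih _ h3
      refine ⟨insert q Q, ?_, ?_, ?_⟩
      · exact insert_subset hq (hQ.trans (erase_subset q B))
      · exact (card_insert_le q Q).trans (by omega)
      · have e : B \ insert q Q = B.erase q \ Q := by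
          ext x; simp only [mem_sdiff, mem_insert, mem_erase]; tauto
        rw [e]; exact hP
    · obtain ⟨Q, hQ, hc, hP⟩ := ih _ h1
      exact ⟨Q, hQ, by omega, hP⟩

/-- number of interiors (below `M`) that contain `B` -/
noncomputable def cost (M : ℕ) (P : Finset α → Prop) (B : Finset α) : ℕ :=
  ((range M).filter (fun j => (Dd^[j] P) B)).card

theorem iter_anti (P : Finset α → Prop) (B : Finset α) (i j : ℕ) (hij : i ≤ j)
    (h : (Dd^[j] P) B) : (Dd^[i] P) B := by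
  induction j with
  | zero =>
    have : i = 0 := by omega
    subst this; exact h
  | succ j ih =>
    rcases Nat.lt_or_ge j i with h1 | h1
    · have : i = j + 1 := by omega
      subst this; exact h
    · refine ih h1 ?_
      rw [Function.iterate_succ_apply'] at h
      exact h.1

theorem rep_cost (M : ℕ) (P : Finset α → Prop) (B : Finset α) (hM : ¬ (Dd^[M] P) B) :
    ∃ Q, Q ⊆ B ∧ Q.card ≤ cost M P B ∧ ¬ P (B \ Q) := by
  refine rep P _ B ?_
  intro h
  have hcM : cost M P B < M := by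
    by_contra hge
    push Not at hge
    exact hM (iter_anti P B _ _ hge h)
  have h1 : range (cost M P B + 1) ⊆ (range M).filter (fun j => (Dd^[j] P) B) := by
    intro j hj
    rw [mem_range] at hj
    rw [mem_filter, mem_range]
    exact ⟨by omega, iter_anti P B _ _ (by omega) h⟩
  have h2 := card_le_card h1
  rw [card_range] at h2
  have h3 : ((range M).filter (fun j => (Dd^[j] P) B)).card = cost M P B := rfl
  omega

theorem cost_sum (A : Finset α) (t : ℕ) (ht : 1 ≤ t) (P : Finset α → Prop) (hm : Mono P)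
    (h : Crs A (3 * t) P P P) (M : ℕ) :
    (∑ B ∈ A.powerset, (cost M P B : ℝ)) * (3 * 4 ^ t) ≤ 4 * 2 ^ A.card := by
  have e : (∑ B ∈ A.powerset, (cost M P B : ℝ)) = ∑ j ∈ range M, (cnt A (Dd^[j] P) : ℝ) := by
    have : ∀ B, (cost M P B : ℝ) = ∑ j ∈ range M, if (Dd^[j] P) B then (1 : ℝ) else 0 := by
      intro B
      unfold cost
      rw [card_filter]; push_cast; rfl
    simp_rw [this]
    rw [sum_comm]
    refine sum_congr rfl fun j _ => ?_
    unfold cnt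
    rw [card_filter]; push_cast; rfl
  rw [e]
  have h1 : ∀ j ∈ range M, (cnt A (Dd^[j] P) : ℝ) ≤ (2 ^ A.card / 4 ^ t) * (1 / 4) ^ j := by
    intro j _
    have h2 := cnt_iter A t ht P hm h j
    have h3 : (2 ^ A.card / 4 ^ t) * (1 / 4 : ℝ) ^ j = 2 ^ A.card / 4 ^ (t + j) := by
      rw [pow_add, one_div, inv_pow]; field_simp
    rw [h3, le_div_iff₀ (by positivity)]
    exact h2
  have h4 : ∑ j ∈ range M, (1 / 4 : ℝ) ^ j ≤ 4 / 3 := by
    have h5 := geom_sum_eq (show (1 / 4 : ℝ) ≠ 1 by norm_num) M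
    rw [h5]
    have h6 : (0 : ℝ) < (1 / 4) ^ M := by positivity
    rw [div_le_iff_of_neg (by norm_num)]
    norm_num
  calc (∑ j ∈ range M, (cnt A (Dd^[j] P) : ℝ)) * (3 * 4 ^ t)
      ≤ (∑ j ∈ range M, (2 ^ A.card / 4 ^ t) * (1 / 4 : ℝ) ^ j) * (3 * 4 ^ t) := by
        gcongr with j hj
        exact h1 j hj
    _ = (2 ^ A.card / 4 ^ t) * (∑ j ∈ range M, (1 / 4 : ℝ) ^ j) * (3 * 4 ^ t) := by
        rw [← mul_sum]
    _ ≤ (2 ^ A.card / 4 ^ t) * (4 / 3) * (3 * 4 ^ t) := by gcongr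
    _ = 4 * 2 ^ A.card := by field_simp

end Int

section Clo

variable {V : Type} [Fintype V]

/-- stages of the closure of `B` through the vertices outside `A`; `σ` = allowed number of
surviving out-neighbours of a dead vertex -/
noncomputable def Zs (N : V → Finset V) (σ : ℕ) (A B : Finset V) : ℕ → Finset V
  | 0 => B
  | n + 1 => Zs N σ A B n ∪
      univ.filter (fun x => x ∉ A ∧ (N x \ Zs N σ A B n).card ≤ σ)

theorem Zs_succ (N : V → Finset V) (σ : ℕ) (A B : Finset V) (n : ℕ) :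
    Zs N σ A B (n + 1) = Zs N σ A B n ∪
      univ.filter (fun x => x ∉ A ∧ (N x \ Zs N σ A B n).card ≤ σ) := rfl

theorem Zs_mono_n (N : V → Finset V) (σ : ℕ) (A B : Finset V) {n m : ℕ} (h : n ≤ m) :
    Zs N σ A B n ⊆ Zs N σ A B m := by
  induction h with
  | refl => exact subset_refl _
  | step _ ih => exact ih.trans (by rw [Zs_succ]; exact subset_union_left)

theorem Zs_mono (N : V → Finset V) (σ : ℕ) (A B C : Finset V) (h : B ⊆ C) (n : ℕ) :
    Zs N σ A B n ⊆ Zs N σ A C n := by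
  induction n with
  | zero => exact h
  | succ n ih =>
    rw [Zs_succ, Zs_succ]
    refine union_subset_union ih ?_
    intro x hx
    rw [mem_filter] at hx ⊢
    refine ⟨hx.1, hx.2.1, ?_⟩
    exact (card_le_card (sdiff_subset_sdiff (subset_refl _) ih)).trans hx.2.2

/-- the closure -/
noncomputable def cl (N : V → Finset V) (σ : ℕ) (A B : Finset V) : Finset V :=
  univ.filter (fun x => ∃ n, x ∈ Zs N σ A B n)

theorem mem_cl (N : V → Finset V) (σ : ℕ) (A B : Finset V) (x : V) :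
    x ∈ cl N σ A B ↔ ∃ n, x ∈ Zs N σ A B n := by
  unfold cl; simp

theorem cl_eq (N : V → Finset V) (σ : ℕ) (A B : Finset V) :
    ∃ n, cl N σ A B = Zs N σ A B n := by
  have h1 : ∀ x, ∃ n, x ∈ cl N σ A B → x ∈ Zs N σ A B n := by
    intro x
    by_cases hx : x ∈ cl N σ A B
    · obtain ⟨n, hn⟩ := (mem_cl N σ A B x).1 hx
      exact ⟨n, fun _ => hn⟩
    · exact ⟨0, fun h => (hx h).elim⟩
  choose f hf using h1
  refine ⟨univ.sup f, ?_⟩
  refine subset_antisymm ?_ ?_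
  · intro x hx
    exact Zs_mono_n N σ A B (le_sup (f := f) (mem_univ x)) (hf x hx)
  · intro x hx
    exact (mem_cl N σ A B x).2 ⟨_, hx⟩

theorem subset_cl (N : V → Finset V) (σ : ℕ) (A B : Finset V) : B ⊆ cl N σ A B := by
  intro x hx
  exact (mem_cl N σ A B x).2 ⟨0, hx⟩

theorem cl_mono (N : V → Finset V) (σ : ℕ) (A B C : Finset V) (h : B ⊆ C) :
    cl N σ A B ⊆ cl N σ A C := by
  intro x hx
  obtain ⟨n, hn⟩ := (mem_cl N σ A B x).1 hx
  exact (mem_cl N σ A C x).2 ⟨n, Zs_mono N σ A B C h n hn⟩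

/-- a non-terminal with at most `σ` surviving out-neighbours is dead -/
theorem cl_closed (N : V → Finset V) (σ : ℕ) (A B : Finset V) (x : V) (hx : x ∉ A)
    (h : (N x \ cl N σ A B).card ≤ σ) : x ∈ cl N σ A B := by
  obtain ⟨n, hn⟩ := cl_eq N σ A B
  rw [mem_cl]
  refine ⟨n + 1, ?_⟩
  rw [Zs_succ, mem_union]
  right
  rw [mem_filter]
  refine ⟨mem_univ _, hx, ?_⟩
  rw [← hn]; exact h

theorem Zs_term (N : V → Finset V) (σ : ℕ) (A B : Finset V) (n : ℕ) (x : V)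
    (hx : x ∈ Zs N σ A B n) (hxB : x ∉ B) :
    x ∉ A ∧ ∃ m, m < n ∧ (N x \ Zs N σ A B m).card ≤ σ := by
  induction n with
  | zero => exact (hxB hx).elim
  | succ n ih =>
    rw [Zs_succ, mem_union] at hx
    rcases hx with h | h
    · obtain ⟨h1, m, hm, h2⟩ := ih h
      exact ⟨h1, m, by omega, h2⟩
    · rw [mem_filter] at h
      exact ⟨h.2.1, n, by omega, h.2.2⟩

theorem cl_term (N : V → Finset V) (σ : ℕ) (A B : Finset V) (x : V)
    (hx : x ∈ cl N σ A B) (hxA : x ∈ A) : x ∈ B := by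
  by_contra hxB
  obtain ⟨n, hn⟩ := (mem_cl N σ A B x).1 hx
  exact (Zs_term N σ A B n x hn hxB).1 hxA

/-- `B` kills `r` -/
def Kil (N : V → Finset V) (σ : ℕ) (A : Finset V) (r : V) : Finset V → Prop :=
  fun B => (N r \ cl N σ A B).card ≤ σ

theorem kil_mono (N : V → Finset V) (σ : ℕ) (A : Finset V) (r : V) : Mono (Kil N σ A r) := by
  intro B C hBC hB
  exact (card_le_card (sdiff_subset_sdiff (subset_refl _) (cl_mono N σ A B C hBC))).trans hB

omit [Fintype V] in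
theorem three (S X Y Z : Finset V) (σ t : ℕ) (hS : 3 * σ + t ≤ S.card)
    (hX : (S \ X).card ≤ σ) (hY : (S \ Y).card ≤ σ) (hZ : (S \ Z).card ≤ σ) :
    t ≤ (S ∩ (X ∩ Y ∩ Z)).card := by
  have h1 : S ⊆ (S ∩ (X ∩ Y ∩ Z)) ∪ (S \ X ∪ S \ Y ∪ S \ Z) := by
    intro x hx
    by_cases h1 : x ∈ X <;> by_cases h2 : x ∈ Y <;> by_cases h3 : x ∈ Z <;>
      simp [hx, h1, h2, h3]
  have h2 := card_le_card h1
  have h3 := card_union_le (S ∩ (X ∩ Y ∩ Z)) (S \ X ∪ S \ Y ∪ S \ Z)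
  have h4 := card_union_le (S \ X ∪ S \ Y) (S \ Z)
  have h5 := card_union_le (S \ X) (S \ Y)
  omega

theorem kil3 (N : V → Finset V) (σ t : ℕ) (A : Finset V)
    (hN : ∀ x, 3 * σ + t ≤ (N x).card) (B C D : Finset V)
    (hB : B ⊆ A) (hC : C ⊆ A) (hD : D ⊆ A) : ∀ (n1 n2 n3 : ℕ) (x : V),
      (N x \ Zs N σ A B n1).card ≤ σ → (N x \ Zs N σ A C n2).card ≤ σ →
      (N x \ Zs N σ A D n3).card ≤ σ → t ≤ (B ∩ C ∩ D).card := by
  intro n1
  induction n1 using Nat.strong_induction_on with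
  | _ n1 ih =>
    intro n2 n3 x h1 h2 h3
    have h4 := three (N x) _ _ _ σ t (hN x) h1 h2 h3
    by_cases h5 : N x ∩ (Zs N σ A B n1 ∩ Zs N σ A C n2 ∩ Zs N σ A D n3) ⊆ B ∩ C ∩ D
    · exact h4.trans (card_le_card h5)
    · rw [not_subset] at h5
      obtain ⟨y, hy, hy2⟩ := h5
      rw [mem_inter, mem_inter, mem_inter] at hy
      obtain ⟨_, ⟨hyB, hyC⟩, hyD⟩ := hy
      have hyA : y ∉ A := by
        intro hyA
        apply hy2
        rw [mem_inter, mem_inter]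
        refine ⟨⟨?_, ?_⟩, ?_⟩
        · by_contra h; exact (Zs_term N σ A B n1 y hyB h).1 hyA
        · by_contra h; exact (Zs_term N σ A C n2 y hyC h).1 hyA
        · by_contra h; exact (Zs_term N σ A D n3 y hyD h).1 hyA
      obtain ⟨_, m1, hm1, k1⟩ := Zs_term N σ A B n1 y hyB (fun h => hyA (hB h))
      obtain ⟨_, m2, hm2, k2⟩ := Zs_term N σ A C n2 y hyC (fun h => hyA (hC h))
      obtain ⟨_, m3, hm3, k3⟩ := Zs_term N σ A D n3 y hyD (fun h => hyA (hD h))
      exact ih m1 hm1 m2 m3 y k1 k2 k3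

theorem kil_crs (N : V → Finset V) (σ t : ℕ) (A : Finset V)
    (hN : ∀ x, 3 * σ + t ≤ (N x).card) (r1 : V) :
    Crs A t (Kil N σ A r1) (Kil N σ A r1) (Kil N σ A r1) := by
  intro B C D hB hC hD h1 h2 h3
  unfold Kil at h1 h2 h3
  obtain ⟨n1, e1⟩ := cl_eq N σ A B
  obtain ⟨n2, e2⟩ := cl_eq N σ A C
  obtain ⟨n3, e3⟩ := cl_eq N σ A D
  rw [e1] at h1
  rw [e2] at h2
  rw [e3] at h3
  exact kil3 N σ t A hN B C D hB hC hD n1 n2 n3 r1 h1 h2 h3

/-- the number of interiors is bounded -/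
theorem kil_M (N : V → Finset V) (σ t : ℕ) (A : Finset V) (ht : 1 ≤ t)
    (hN : ∀ x, 3 * σ + t ≤ (N x).card) (r : V) (B : Finset V) (hB : B ⊆ A) :
    ¬ (Dd^[Fintype.card V] (Kil N σ A r)) B := by
  intro h
  have h1 := (iter_all A t ht _ (kil_mono N σ A r) (kil_crs N σ t A hN r)
    (Fintype.card V)).2 B B B hB hB hB h h h
  rw [inter_self, inter_self] at h1
  have h2 := card_le_univ B
  omega

end Clo

end Pool.H41.TC
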