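import Mathlib

/-! Translation between `Set.ncard` statements about a digraph and finsets of out-neighbours. -/

namespace Pool.H41.TC

open Finset Classical

variable {V : Type} [Fintype V]

/-- out-neighbours as a finset -/
noncomputable def Nb (G : Digraph V) (v : V) : Finset V := univ.filter (fun w => G.Adj v w)

theorem nb_card (G : Digraph V) (v : V) : {w : V | G.Adj v w}.ncard = (Nb G v).card := by
  rw [← Set.ncard_coe_finset]
  congr 1
  ext w; simp [Nb]

theorem nb_inter (G : Digraph V) (v : V) (C : Finset V) :
    {w : V | w ∈ (C : Set V) ∧ G.Adj v w}.ncard = (Nb G v ∩ C).card := by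
  rw [← Set.ncard_coe_finset]
  congr 1
  ext w; simp [Nb, and_comm]

/-- a set as a finset -/
noncomputable def fs (A : Set V) : Finset V := univ.filter (fun x => x ∈ A)

theorem coe_fs (A : Set V) : (fs A : Set V) = A := by
  ext x; simp [fs]

theorem mem_fs (A : Set V) (x : V) : x ∈ fs A ↔ x ∈ A := by simp [fs]

theorem fs_card (A : Set V) : A.ncard = (fs A).card := by
  rw [← Set.ncard_coe_finset, coe_fs]

end Pool.H41.TC
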