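import Mathlib

/-! Three-wise cross `τ`-intersecting up-sets: `4^τ |P| |Q| |R| ≤ 8^n`. -/

namespace Pool.H41.TC

open Finset Classical

variable {α : Type}

/-- number of subsets of `A` with property `P` -/
noncomputable def cnt (A : Finset α) (P : Finset α → Prop) : ℕ :=
  (A.powerset.filter P).card

/-- monotone (upward closed) property -/
def Mono (P : Finset α → Prop) : Prop := ∀ B C, B ⊆ C → P B → P C

/-- cross intersecting property inside `A` -/
def Crs (A : Finset α) (τ : ℕ) (P Q R : Finset α → Prop) : Prop :=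
  ∀ B C D, B ⊆ A → C ⊆ A → D ⊆ A → P B → Q C → R D → τ ≤ (B ∩ C ∩ D).card

theorem cnt_le (A : Finset α) (P : Finset α → Prop) : cnt A P ≤ 2 ^ A.card := by
  unfold cnt
  refine (card_filter_le _ _).trans ?_
  rw [card_powerset]

theorem cnt_mono (A : Finset α) (P Q : Finset α → Prop) (h : ∀ B, B ⊆ A → P B → Q B) :
    cnt A P ≤ cnt A Q := by
  unfold cnt
  refine card_le_card ?_
  intro B hB
  rw [mem_filter, mem_powerset] at hB ⊢
  exact ⟨hB.1, h B hB.1 hB.2⟩

theorem cnt_insert (A : Finset α) (a : α) (ha : a ∉ A) (P : Finset α → Prop) :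
    cnt (insert a A) P = cnt A P + cnt A (fun B => P (insert a B)) := by
  unfold cnt
  rw [powerset_insert, filter_union, card_union_of_disjoint, filter_image, card_image_of_injOn]
  · intro B hB C hC h
    have hB' : B ∈ A.powerset := (mem_filter.1 (mem_coe.1 hB)).1
    have hC' : C ∈ A.powerset := (mem_filter.1 (mem_coe.1 hC)).1
    have h1 : a ∉ B := fun h2 => ha (mem_powerset.1 hB' h2)
    have h2 : a ∉ C := fun h2 => ha (mem_powerset.1 hC' h2)
    have h3 : insert a B = insert a C := h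
    rw [← erase_insert h1, ← erase_insert h2, h3]
  · rw [disjoint_left]
    intro B hB hC
    have hB' : B ∈ A.powerset := (mem_filter.1 hB).1
    have hC' := (mem_filter.1 hC).1
    obtain ⟨C, _, rfl⟩ := mem_image.1 hC'
    exact ha (mem_powerset.1 hB' (mem_insert_self a C))

theorem alg (K P Q : ℝ) (hK : 0 ≤ K) (hP : 0 < P) (hPK : P ≤ 4 * K)
    (x y z : ℝ) (_hx : 0 ≤ x) (hy : 0 ≤ y) (hz : 0 ≤ z)
    (hx1 : x ≤ P) (hy1 : y ≤ P) (hz1 : z ≤ P) (hx2 : x ≤ K) (hy2 : y ≤ K) (hz2 : z ≤ K)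
    (hQ : Q * P ^ 2 = (P + x) * (P + y) * (P + z)) : Q ≤ 8 * K := by
  have hP2 : 0 < P ^ 2 := by positivity
  have key : (P + x) * (P + y) * (P + z) ≤ 8 * K * P ^ 2 := by
    rcases le_total P K with h | h
    · calc (P + x) * (P + y) * (P + z) ≤ (P + P) * (P + P) * (P + P) := by gcongr
        _ = 8 * P * P ^ 2 := by ring
        _ ≤ 8 * K * P ^ 2 := by gcongr
    · have h1 : (P + x) * (P + y) * (P + z) ≤ (P + K) * (P + K) * (P + K) := by gcongr
      have h2 : 8 * K * P ^ 2 - (P + K) * (P + K) * (P + K)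
          = (P - K) * (P * (4 * K - P) + K ^ 2) := by ring
      have h3 : 0 ≤ (P - K) * (P * (4 * K - P) + K ^ 2) := by
        apply mul_nonneg (by linarith)
        have : 0 ≤ P * (4 * K - P) := mul_nonneg hP.le (by linarith)
        positivity
      linarith
  have h4 : Q * P ^ 2 ≤ 8 * K * P ^ 2 := by rw [hQ]; exact key
  exact le_of_mul_le_mul_right h4 hP2

theorem cross3 (A : Finset α) : ∀ (τ : ℕ) (P Q R : Finset α → Prop), Mono P → Mono Q → Mono R →
    Crs A τ P Q R → (4 : ℝ) ^ τ * ((cnt A P : ℝ) * cnt A Q * cnt A R) ≤ 8 ^ A.card := by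
  induction A using Finset.induction_on with
  | empty =>
    intro τ P Q R _ _ _ h
    have h1 : ∀ S : Finset α → Prop, cnt ∅ S ≤ 1 := fun S => by
      have := cnt_le ∅ S; simpa using this
    by_cases h0 : P ∅ ∧ Q ∅ ∧ R ∅
    · have h2 := h ∅ ∅ ∅ (subset_refl _) (subset_refl _) (subset_refl _) h0.1 h0.2.1 h0.2.2
      have h3 : τ = 0 := by simpa using h2
      subst h3
      have a1 : (cnt ∅ P : ℝ) ≤ 1 := by exact_mod_cast h1 P
      have a2 : (cnt ∅ Q : ℝ) ≤ 1 := by exact_mod_cast h1 Q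
      have a3 : (cnt ∅ R : ℝ) ≤ 1 := by exact_mod_cast h1 R
      have b1 : (cnt ∅ P : ℝ) * cnt ∅ Q * cnt ∅ R ≤ 1 * 1 * 1 := by gcongr
      simpa using b1
    · have hz : ∀ S : Finset α → Prop, ¬ S ∅ → cnt ∅ S = 0 := by
        intro S hS
        unfold cnt
        rw [card_eq_zero, filter_eq_empty_iff]
        intro B hB
        have : B = ∅ := by simpa using hB
        rw [this]; exact hS
      have h4 : (cnt ∅ P : ℝ) * cnt ∅ Q * cnt ∅ R = 0 := by
        by_cases hP : P ∅
        · by_cases hQ : Q ∅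
          · have hR : ¬ R ∅ := fun hR => h0 ⟨hP, hQ, hR⟩
            rw [hz R hR]; simp
          · rw [hz Q hQ]; simp
        · rw [hz P hP]; simp
      rw [h4]; simp
  | insert a A ha ih =>
    intro τ P Q R mP mQ mR h
    rw [cnt_insert A a ha P, cnt_insert A a ha Q, cnt_insert A a ha R, card_insert_of_notMem ha]
    have mI : ∀ S : Finset α → Prop, Mono S → Mono (fun B => S (insert a B)) := by
      intro S hS B C hBC hB
      exact hS _ _ (insert_subset_insert a hBC) hB
    have le1 : ∀ S : Finset α → Prop, Mono S → cnt A S ≤ cnt A (fun B => S (insert a B)) := by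
      intro S hS
      exact cnt_mono A _ _ (fun B _ hB => hS _ _ (subset_insert a B) hB)
    have sub : ∀ B, B ⊆ A → B ⊆ insert a A := fun B hB => hB.trans (subset_insert a A)
    have subi : ∀ B, B ⊆ A → insert a B ⊆ insert a A := fun B hB => insert_subset_insert a hB
    generalize hp0 : cnt A P = p0
    generalize hq0 : cnt A Q = q0
    generalize hr0 : cnt A R = r0
    generalize hp1 : cnt A (fun B => P (insert a B)) = p1
    generalize hq1 : cnt A (fun B => Q (insert a B)) = q1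
    generalize hr1 : cnt A (fun B => R (insert a B)) = r1
    have lp : (p0 : ℝ) ≤ p1 := by
      rw [← hp0, ← hp1]; exact_mod_cast le1 P mP
    have lq : (q0 : ℝ) ≤ q1 := by
      rw [← hq0, ← hq1]; exact_mod_cast le1 Q mQ
    have lr : (r0 : ℝ) ≤ r1 := by
      rw [← hr0, ← hr1]; exact_mod_cast le1 R mR
    have i0 : (4 : ℝ) ^ (τ - 1) * ((p1 : ℝ) * q1 * r1) ≤ 8 ^ A.card := by
      rw [← hp1, ← hq1, ← hr1]
      refine ih (τ - 1) _ _ _ (mI P mP) (mI Q mQ) (mI R mR) ?_
      intro B C D hB hC hD h1 h2 h3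
      have := h _ _ _ (subi B hB) (subi C hC) (subi D hD) h1 h2 h3
      rw [← insert_inter_distrib, ← insert_inter_distrib, card_insert_of_notMem] at this
      · omega
      · intro hh
        rw [mem_inter, mem_inter] at hh
        exact ha (hB hh.1.1)
    have i1 : (4 : ℝ) ^ τ * ((p0 : ℝ) * q1 * r1) ≤ 8 ^ A.card := by
      rw [← hp0, ← hq1, ← hr1]
      refine ih τ _ _ _ mP (mI Q mQ) (mI R mR) ?_
      intro B C D hB hC hD h1 h2 h3
      have := h _ _ _ (sub B hB) (subi C hC) (subi D hD) h1 h2 h3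
      have e : B ∩ insert a C ∩ insert a D = B ∩ C ∩ D := by
        ext x
        simp only [mem_inter, mem_insert]
        constructor
        · rintro ⟨⟨hx, hy⟩, hz⟩
          have hne : x ≠ a := fun e => ha (e ▸ hB hx)
          exact ⟨⟨hx, hy.resolve_left hne⟩, hz.resolve_left hne⟩
        · rintro ⟨⟨hx, hy⟩, hz⟩
          exact ⟨⟨hx, Or.inr hy⟩, Or.inr hz⟩
      rw [e] at this; exact this
    have i2 : (4 : ℝ) ^ τ * ((p1 : ℝ) * q0 * r1) ≤ 8 ^ A.card := by
      rw [← hp1, ← hq0, ← hr1]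
      refine ih τ _ _ _ (mI P mP) mQ (mI R mR) ?_
      intro B C D hB hC hD h1 h2 h3
      have := h _ _ _ (subi B hB) (sub C hC) (subi D hD) h1 h2 h3
      have e : insert a B ∩ C ∩ insert a D = B ∩ C ∩ D := by
        ext x
        simp only [mem_inter, mem_insert]
        constructor
        · rintro ⟨⟨hx, hy⟩, hz⟩
          have hne : x ≠ a := fun e => ha (e ▸ hC hy)
          exact ⟨⟨hx.resolve_left hne, hy⟩, hz.resolve_left hne⟩
        · rintro ⟨⟨hx, hy⟩, hz⟩
          exact ⟨⟨Or.inr hx, hy⟩, Or.inr hz⟩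
      rw [e] at this; exact this
    have i3 : (4 : ℝ) ^ τ * ((p1 : ℝ) * q1 * r0) ≤ 8 ^ A.card := by
      rw [← hp1, ← hq1, ← hr0]
      refine ih τ _ _ _ (mI P mP) (mI Q mQ) mR ?_
      intro B C D hB hC hD h1 h2 h3
      have := h _ _ _ (subi B hB) (subi C hC) (sub D hD) h1 h2 h3
      have e : insert a B ∩ insert a C ∩ D = B ∩ C ∩ D := by
        ext x
        simp only [mem_inter, mem_insert]
        constructor
        · rintro ⟨⟨hx, hy⟩, hz⟩
          have hne : x ≠ a := fun e => ha (e ▸ hD hz)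
          exact ⟨⟨hx.resolve_left hne, hy.resolve_left hne⟩, hz⟩
        · rintro ⟨⟨hx, hy⟩, hz⟩
          exact ⟨⟨Or.inr hx, Or.inr hy⟩, hz⟩
      rw [e] at this; exact this
    have p0n : (0 : ℝ) ≤ p0 := Nat.cast_nonneg _
    have q0n : (0 : ℝ) ≤ q0 := Nat.cast_nonneg _
    have r0n : (0 : ℝ) ≤ r0 := Nat.cast_nonneg _
    have p1n : (0 : ℝ) ≤ p1 := Nat.cast_nonneg _
    have q1n : (0 : ℝ) ≤ q1 := Nat.cast_nonneg _
    have r1n : (0 : ℝ) ≤ r1 := Nat.cast_nonneg _
    push_cast
    have hX : (0 : ℝ) < 8 ^ A.card := by positivity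
    have hT : (0 : ℝ) < 4 ^ τ := by positivity
    have hK0 : (0 : ℝ) ≤ 8 ^ A.card / 4 ^ τ := by positivity
    have hKT : (4 : ℝ) ^ τ * (8 ^ A.card / 4 ^ τ) = 8 ^ A.card := by field_simp
    have div : ∀ u : ℝ, (4 : ℝ) ^ τ * u ≤ 8 ^ A.card → u ≤ 8 ^ A.card / 4 ^ τ := by
      intro u hu
      rw [le_div_iff₀ hT]; linarith
    rcases (mul_nonneg (mul_nonneg p1n q1n) r1n).lt_or_eq with hpos | hzero
    · have hP4 : (p1 : ℝ) * q1 * r1 ≤ 4 * (8 ^ A.card / 4 ^ τ) := by
        rcases Nat.eq_zero_or_pos τ with h0 | h0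
        · subst h0
          have := i0
          simp only [Nat.zero_sub, pow_zero, one_mul, div_one] at this ⊢
          linarith
        · obtain ⟨τ', rfl⟩ := Nat.exists_eq_succ_of_ne_zero h0.ne'
          have := i0
          rw [Nat.succ_sub_one] at this
          have h5 : (4 : ℝ) ^ (τ'.succ) * ((p1 : ℝ) * q1 * r1) ≤ 4 * 8 ^ A.card := by
            rw [pow_succ]; nlinarith
          have h6 : (4 : ℝ) * (8 ^ A.card / 4 ^ τ'.succ) = (4 * 8 ^ A.card) / 4 ^ τ'.succ := by
            rw [mul_div_assoc]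
          rw [h6, le_div_iff₀ hT]; linarith
      have main := alg (8 ^ A.card / 4 ^ τ) ((p1 : ℝ) * q1 * r1)
        ((p0 + p1) * (q0 + q1) * (r0 + r1)) hK0 hpos hP4
        ((p0 : ℝ) * q1 * r1) ((p1 : ℝ) * q0 * r1) ((p1 : ℝ) * q1 * r0)
        (by positivity) (by positivity) (by positivity)
        (by gcongr) (by gcongr) (by gcongr)
        (div _ i1) (div _ i2) (div _ i3) (by ring)
      calc (4 : ℝ) ^ τ * (((p0 : ℝ) + p1) * (q0 + q1) * (r0 + r1))
          ≤ 4 ^ τ * (8 * (8 ^ A.card / 4 ^ τ)) := by gcongr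
        _ = 8 * (4 ^ τ * (8 ^ A.card / 4 ^ τ)) := by ring
        _ = 8 ^ (A.card + 1) := by rw [hKT, pow_succ]; ring
    · have h7 : ((p0 : ℝ) + p1) * (q0 + q1) * (r0 + r1) = 0 := by
        have h8 : (p1 : ℝ) * q1 * r1 = 0 := hzero.symm
        rcases mul_eq_zero.1 h8 with h9 | h9
        · rcases mul_eq_zero.1 h9 with h10 | h10
          · have : (p0 : ℝ) = 0 := le_antisymm (by linarith) p0n
            rw [this, h10]; ring
          · have : (q0 : ℝ) = 0 := le_antisymm (by linarith) q0n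
            rw [this, h10]; ring
        · have : (r0 : ℝ) = 0 := le_antisymm (by linarith) r0n
          rw [this, h9]; ring
      rw [h7, mul_zero]; positivity

end Pool.H41.TC
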