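import Pool.Agent.H41.TC.Cross

/-! The symmetric Lovász local lemma for a uniformly random subset of a finite set. -/

namespace Pool.H41.TC

open Finset Classical

variable {V : Type}

/-- the set counted by `cnt` -/
noncomputable def cset (U : Finset V) (P : Finset V → Prop) : Finset (Finset V) :=
  U.powerset.filter P

theorem cnt_cset (U : Finset V) (P : Finset V → Prop) : cnt U P = (cset U P).card := rfl

theorem mem_cset (U : Finset V) (P : Finset V → Prop) (W : Finset V) :
    W ∈ cset U P ↔ W ⊆ U ∧ P W := by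
  unfold cset; rw [mem_filter, mem_powerset]

theorem cnt_split (U1 U2 : Finset V) (hd : Disjoint U1 U2) (P R : Finset V → Prop)
    (hP : ∀ W, W ⊆ U1 ∪ U2 → (P W ↔ P (W ∩ U1))) (hR : ∀ W, W ⊆ U1 ∪ U2 → (R W ↔ R (W ∩ U2))) :
    cnt (U1 ∪ U2) (fun W => P W ∧ R W) = cnt U1 P * cnt U2 R := by
  rw [cnt_cset, cnt_cset, cnt_cset, ← card_product]
  refine card_nbij' (fun W => (W ∩ U1, W ∩ U2)) (fun X => X.1 ∪ X.2) ?_ ?_ ?_ ?_
  · intro W hW
    rw [mem_coe, mem_cset] at hW
    rw [mem_coe, mem_product, mem_cset, mem_cset]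
    exact ⟨⟨inter_subset_right, (hP W hW.1).1 hW.2.1⟩,
      ⟨inter_subset_right, (hR W hW.1).1 hW.2.2⟩⟩
  · rintro ⟨X, Y⟩ hX
    rw [mem_coe, mem_product, mem_cset, mem_cset] at hX
    obtain ⟨⟨h1, h2⟩, h3, h4⟩ := hX
    dsimp only at h1 h2 h3 h4
    rw [mem_coe, mem_cset]
    have hs : X ∪ Y ⊆ U1 ∪ U2 := union_subset_union h1 h3
    have e1 : (X ∪ Y) ∩ U1 = X := by
      ext x
      simp only [mem_inter, mem_union]
      constructor
      · rintro ⟨h | h, h'⟩
        · exact h
        · exact ((disjoint_left.1 hd) h' (h3 h)).elim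
      · intro h; exact ⟨Or.inl h, h1 h⟩
    have e2 : (X ∪ Y) ∩ U2 = Y := by
      ext x
      simp only [mem_inter, mem_union]
      constructor
      · rintro ⟨h | h, h'⟩
        · exact ((disjoint_left.1 hd) (h1 h) h').elim
        · exact h
      · intro h; exact ⟨Or.inr h, h3 h⟩
    refine ⟨hs, ?_, ?_⟩
    · rw [hP _ hs, e1]; exact h2
    · rw [hR _ hs, e2]; exact h4
  · intro W hW
    rw [mem_coe, mem_cset] at hW
    show W ∩ U1 ∪ W ∩ U2 = W
    rw [← inter_union_distrib_left]
    exact inter_eq_left.2 hW.1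
  · rintro ⟨X, Y⟩ hX
    rw [mem_coe, mem_product, mem_cset, mem_cset] at hX
    obtain ⟨⟨h1, h2⟩, h3, h4⟩ := hX
    dsimp only at h1 h2 h3 h4
    have e1 : (X ∪ Y) ∩ U1 = X := by
      ext x
      simp only [mem_inter, mem_union]
      constructor
      · rintro ⟨h | h, h'⟩
        · exact h
        · exact ((disjoint_left.1 hd) h' (h3 h)).elim
      · intro h; exact ⟨Or.inl h, h1 h⟩
    have e2 : (X ∪ Y) ∩ U2 = Y := by
      ext x
      simp only [mem_inter, mem_union]
      constructor
      · rintro ⟨h | h, h'⟩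
        · exact ((disjoint_left.1 hd) (h1 h) h').elim
        · exact h
      · intro h; exact ⟨Or.inr h, h3 h⟩
    show ((X ∪ Y) ∩ U1, (X ∪ Y) ∩ U2) = (X, Y)
    rw [e1, e2]

theorem cnt_true (U : Finset V) : cnt U (fun _ => True) = 2 ^ U.card := by
  unfold cnt
  rw [filter_true, card_powerset]

theorem cnt_congr (U : Finset V) (P Q : Finset V → Prop) (h : ∀ W, W ⊆ U → (P W ↔ Q W)) :
    cnt U P = cnt U Q := by
  apply le_antisymm
  · exact cnt_mono U P Q (fun W hW => (h W hW).1)
  · exact cnt_mono U Q P (fun W hW => (h W hW).2)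

/-- independence of events with disjoint supports -/
theorem indep (U S : Finset V) (P R : Finset V → Prop)
    (hP : ∀ W, W ⊆ U → (P W ↔ P (W ∩ S))) (hR : ∀ W, W ⊆ U → (R W ↔ R (W \ S))) :
    (cnt U (fun W => P W ∧ R W) : ℝ) * 2 ^ U.card = cnt U P * cnt U R := by
  have hU : U ∩ S ∪ U \ S = U := by
    ext x; simp only [mem_union, mem_inter, mem_sdiff]; tauto
  have hdj : Disjoint (U ∩ S) (U \ S) := by
    rw [disjoint_left]; intro x hx hy
    exact (mem_sdiff.1 hy).2 (mem_inter.1 hx).2
  have hP' : ∀ W, W ⊆ U ∩ S ∪ U \ S → (P W ↔ P (W ∩ (U ∩ S))) := by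
    intro W hW
    rw [hU] at hW
    have e : W ∩ (U ∩ S) = W ∩ S := by
      rw [← inter_assoc, inter_eq_left.2 hW]
    rw [e]; exact hP W hW
  have hR' : ∀ W, W ⊆ U ∩ S ∪ U \ S → (R W ↔ R (W ∩ (U \ S))) := by
    intro W hW
    rw [hU] at hW
    have e : W ∩ (U \ S) = W \ S := by
      ext x
      simp only [mem_inter, mem_sdiff]
      constructor
      · rintro ⟨h1, _, h3⟩; exact ⟨h1, h3⟩
      · rintro ⟨h1, h2⟩; exact ⟨h1, hW h1, h2⟩
    rw [e]; exact hR W hW
  have h1 := cnt_split (U ∩ S) (U \ S) hdj P R hP' hR'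
  have h2 := cnt_split (U ∩ S) (U \ S) hdj P (fun _ => True) hP' (fun _ _ => Iff.rfl)
  have h3 := cnt_split (U ∩ S) (U \ S) hdj (fun _ => True) R (fun _ _ => Iff.rfl) hR'
  rw [hU] at h1 h2 h3
  rw [cnt_true] at h2 h3
  have e2 : cnt U P = cnt (U ∩ S) P * 2 ^ (U \ S).card := by
    rw [← h2]; exact cnt_congr U _ _ (fun W _ => by simp)
  have e3 : cnt U R = 2 ^ (U ∩ S).card * cnt (U \ S) R := by
    rw [← h3]; exact cnt_congr U _ _ (fun W _ => by simp)
  have e4 : U.card = (U ∩ S).card + (U \ S).card := by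
    rw [← card_union_of_disjoint hdj, hU]
  rw [h1, e2, e3, e4, pow_add]
  push_cast
  ring

theorem cnt_add (U : Finset V) (P Q : Finset V → Prop) :
    cnt U P = cnt U (fun W => P W ∧ Q W) + cnt U (fun W => P W ∧ ¬ Q W) := by
  rw [cnt_cset, cnt_cset, cnt_cset, ← card_filter_add_card_filter_not (s := cset U P) (p := Q)]
  congr 2
  · ext W; rw [mem_filter, mem_cset, mem_cset]; tauto
  · ext W; rw [mem_filter, mem_cset, mem_cset]; tauto

/-- the event that nothing bad with index in `T` happens -/
def Good {ι : Type} (E : ι → Finset V → Prop) (T : Finset ι) : Finset V → Prop :=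
  fun W => ∀ j ∈ T, ¬ E j W

theorem lll_step {ι : Type} (U : Finset V) (I : Finset ι) (E : ι → Finset V → Prop)
    (S : ι → Finset V) (hS : ∀ i ∈ I, ∀ W W', W ⊆ U → W' ⊆ U → W ∩ S i = W' ∩ S i →
      (E i W ↔ E i W')) (p : ℝ) (d : ℕ) (hp0 : 0 ≤ p)
    (hd : ∀ i ∈ I, (I.filter (fun j => ¬ Disjoint (S i) (S j))).card ≤ d)
    (hp : ∀ i ∈ I, (cnt U (E i) : ℝ) ≤ p * 2 ^ U.card) (h4 : 4 * p * d ≤ 1) :
    ∀ (n : ℕ) (T : Finset ι), T ⊆ I → T.card = n → ∀ v ∈ I,
      (cnt U (fun W => E v W ∧ Good E T W) : ℝ) ≤ 2 * p * cnt U (Good E T) := by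
  intro n
  induction n using Nat.strong_induction_on with
  | _ n ih =>
    intro T hT hn v hv
    obtain ⟨T1, hT1⟩ : ∃ T1, T1 = T.filter (fun j => ¬ Disjoint (S v) (S j)) := ⟨_, rfl⟩
    obtain ⟨T2, hT2⟩ : ∃ T2, T2 = T.filter (fun j => Disjoint (S v) (S j)) := ⟨_, rfl⟩
    have h2T : T2 ⊆ T := by rw [hT2]; exact filter_subset _ _
    have h1T : T1 ⊆ T := by rw [hT1]; exact filter_subset _ _
    have hT2p : (0 : ℝ) < 2 ^ U.card := by positivity
    -- independence
    have hind : (cnt U (fun W => E v W ∧ Good E T2 W) : ℝ) ≤ p * cnt U (Good E T2) := by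
      have h1 := indep U (S v) (E v) (Good E T2) (by
        intro W hW
        exact hS v hv W (W ∩ S v) hW (inter_subset_left.trans hW)
          (by rw [inter_assoc, inter_self])) (by
        intro W hW
        have : ∀ j ∈ T2, (E j W ↔ E j (W \ S v)) := by
          intro j hj
          have hj' := hj
          rw [hT2, mem_filter] at hj'
          refine hS j (hT (h2T hj)) W (W \ S v) hW (sdiff_subset.trans hW) ?_
          ext x
          simp only [mem_inter, mem_sdiff]
          constructor
          · rintro ⟨a, b⟩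
            exact ⟨⟨a, fun c => (disjoint_left.1 hj'.2) c b⟩, b⟩
          · rintro ⟨⟨a, _⟩, b⟩
            exact ⟨a, b⟩
        unfold Good
        constructor
        · intro h j hj hE
          exact h j hj ((this j hj).2 hE)
        · intro h j hj hE
          exact h j hj ((this j hj).1 hE))
      have h2 := hp v hv
      have h3 : (cnt U (fun W => E v W ∧ Good E T2 W) : ℝ) * 2 ^ U.card
          ≤ (p * cnt U (Good E T2)) * 2 ^ U.card := by
        rw [h1]
        calc (cnt U (E v) : ℝ) * cnt U (Good E T2) ≤ (p * 2 ^ U.card) * cnt U (Good E T2) := by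
              gcongr
          _ = (p * cnt U (Good E T2)) * 2 ^ U.card := by ring
      exact le_of_mul_le_mul_right h3 hT2p
    have hmon : (cnt U (fun W => E v W ∧ Good E T W) : ℝ)
        ≤ cnt U (fun W => E v W ∧ Good E T2 W) := by
      have := cnt_mono U (fun W => E v W ∧ Good E T W) (fun W => E v W ∧ Good E T2 W)
        (fun W _ h => ⟨h.1, fun j hj => h.2 j (h2T hj)⟩)
      exact_mod_cast this
    have hgoodT : (cnt U (Good E T2) : ℝ) ≤ 2 * cnt U (Good E T) := by
      rcases T1.eq_empty_or_nonempty with he | hne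
      · have hTT : T2 = T := by
          apply subset_antisymm h2T
          intro j hj
          rw [hT2, mem_filter]
          refine ⟨hj, ?_⟩
          by_contra hc
          have : j ∈ T1 := by rw [hT1, mem_filter]; exact ⟨hj, hc⟩
          rw [he] at this
          exact absurd this (notMem_empty j)
        rw [hTT]
        have : (0 : ℝ) ≤ cnt U (Good E T) := Nat.cast_nonneg _
        linarith
      · have hlt : T2.card < n := by
          rw [← hn]
          apply card_lt_card
          rw [Finset.ssubset_iff_subset_ne]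
          refine ⟨h2T, ?_⟩
          intro heq
          obtain ⟨j, hj⟩ := hne
          have hjT := h1T hj
          rw [← heq, hT2, mem_filter] at hjT
          rw [hT1, mem_filter] at hj
          exact hj.2 hjT.2
        have h1 : ∀ j ∈ T1, (cnt U (fun W => E j W ∧ Good E T2 W) : ℝ)
            ≤ 2 * p * cnt U (Good E T2) := by
          intro j hj
          exact ih T2.card hlt T2 (h2T.trans hT) rfl j (hT (h1T hj))
        have h2 : (cnt U (Good E T2) : ℝ) ≤ cnt U (Good E T) +
            ∑ j ∈ T1, (cnt U (fun W => E j W ∧ Good E T2 W) : ℝ) := by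
          have h3 : cset U (Good E T2) ⊆ cset U (Good E T) ∪
              T1.biUnion (fun j => cset U (fun W => E j W ∧ Good E T2 W)) := by
            intro W hW
            rw [mem_cset] at hW
            rw [mem_union, mem_biUnion, mem_cset]
            by_cases hg : Good E T W
            · exact Or.inl ⟨hW.1, hg⟩
            · right
              unfold Good at hg
              push Not at hg
              obtain ⟨j, hj, hE⟩ := hg
              refine ⟨j, ?_, ?_⟩
              · rw [hT1, mem_filter]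
                refine ⟨hj, ?_⟩
                intro hdis
                have : j ∈ T2 := by rw [hT2, mem_filter]; exact ⟨hj, hdis⟩
                exact hW.2 j this hE
              · rw [mem_cset]
                exact ⟨hW.1, hE, hW.2⟩
          have h4 := (card_le_card h3).trans (card_union_le _ _)
          have h5 := h4.trans (Nat.add_le_add_left card_biUnion_le _)
          have h6 : cnt U (Good E T2) ≤ cnt U (Good E T) +
              ∑ j ∈ T1, cnt U (fun W => E j W ∧ Good E T2 W) := h5
          exact_mod_cast h6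
        have h6 : ∑ j ∈ T1, (cnt U (fun W => E j W ∧ Good E T2 W) : ℝ)
            ≤ T1.card * (2 * p * cnt U (Good E T2)) := by
          have := sum_le_sum h1
          rwa [sum_const, nsmul_eq_mul] at this
        have h7 : (T1.card : ℝ) ≤ d := by
          have : T1.card ≤ (I.filter (fun j => ¬ Disjoint (S v) (S j))).card := by
            rw [hT1]
            exact card_le_card (filter_subset_filter _ hT)
          exact_mod_cast this.trans (hd v hv)
        have h8 : (T1.card : ℝ) * (2 * p * cnt U (Good E T2)) ≤ cnt U (Good E T2) / 2 := by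
          have h9 : (0 : ℝ) ≤ cnt U (Good E T2) := Nat.cast_nonneg _
          calc (T1.card : ℝ) * (2 * p * cnt U (Good E T2))
              ≤ d * (2 * p * cnt U (Good E T2)) := by gcongr
            _ = (4 * p * d) * cnt U (Good E T2) / 2 := by ring
            _ ≤ 1 * cnt U (Good E T2) / 2 := by gcongr
            _ = cnt U (Good E T2) / 2 := by ring
        linarith
    calc (cnt U (fun W => E v W ∧ Good E T W) : ℝ) ≤ p * cnt U (Good E T2) := hmon.trans hind
      _ ≤ p * (2 * cnt U (Good E T)) := by gcongr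
      _ = 2 * p * cnt U (Good E T) := by ring

theorem lll {ι : Type} (U : Finset V) (I : Finset ι) (E : ι → Finset V → Prop)
    (S : ι → Finset V) (hS : ∀ i ∈ I, ∀ W W', W ⊆ U → W' ⊆ U → W ∩ S i = W' ∩ S i →
      (E i W ↔ E i W')) (p : ℝ) (d : ℕ) (hp0 : 0 ≤ p) (hd1 : 1 ≤ d)
    (hd : ∀ i ∈ I, (I.filter (fun j => ¬ Disjoint (S i) (S j))).card ≤ d)
    (hp : ∀ i ∈ I, (cnt U (E i) : ℝ) ≤ p * 2 ^ U.card) (h4 : 4 * p * d ≤ 1) :
    ∃ W, W ⊆ U ∧ ∀ i ∈ I, ¬ E i W := by
  have key : ∀ T : Finset ι, T ⊆ I → 0 < (cnt U (Good E T) : ℝ) := by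
    intro T
    induction T using Finset.induction_on with
    | empty =>
      intro _
      have : cnt U (Good E ∅) = 2 ^ U.card := by
        rw [← cnt_true U]
        exact cnt_congr U _ _ (fun W _ => by simp [Good])
      rw [this]; positivity
    | insert j T hj ih =>
      intro hT
      have h1 := ih ((subset_insert j T).trans hT)
      have h2 := lll_step U I E S hS p d hp0 hd hp h4 T.card T ((subset_insert j T).trans hT) rfl j
        (hT (mem_insert_self j T))
      have h3 := cnt_add U (Good E T) (E j)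
      have h4' : cnt U (Good E (insert j T)) = cnt U (fun W => Good E T W ∧ ¬ E j W) := by
        refine cnt_congr U _ _ (fun W _ => ?_)
        unfold Good
        constructor
        · intro h
          exact ⟨fun i hi => h i (mem_insert_of_mem hi), h j (mem_insert_self j T)⟩
        · rintro ⟨h, h'⟩ i hi
          rcases mem_insert.1 hi with rfl | hi
          · exact h'
          · exact h i hi
      have h5 : cnt U (fun W => Good E T W ∧ E j W) = cnt U (fun W => E j W ∧ Good E T W) :=
        cnt_congr U _ _ (fun W _ => and_comm)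
      have h6 : (cnt U (Good E T) : ℝ) = cnt U (fun W => E j W ∧ Good E T W) +
          cnt U (Good E (insert j T)) := by
        rw [h4', ← h5]; exact_mod_cast h3
      have h7 : p ≤ 1 / 4 := by
        have : (1 : ℝ) ≤ d := by exact_mod_cast hd1
        nlinarith
      nlinarith
  have h1 := key I (subset_refl _)
  have h2 : 0 < cnt U (Good E I) := by exact_mod_cast h1
  rw [cnt_cset] at h2
  obtain ⟨W, hW⟩ := card_pos.1 h2
  rw [mem_cset] at hW
  exact ⟨W, hW.1, hW.2⟩

/-- few elements of `M` in a random subset: exponential moment bound with `x = 1/8` -/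
theorem few (U M : Finset V) (s : ℕ) :
    (cnt U (fun W => (M ∩ W).card < s) : ℝ) ≤
      2 ^ U.card * (8 ^ s * (9 / 16) ^ (M ∩ U).card) := by
  have h1 : ∑ W ∈ U.powerset, ∏ w ∈ W, (if w ∈ M then (1 / 8 : ℝ) else 1)
      = ∏ w ∈ U, ((if w ∈ M then (1 / 8 : ℝ) else 1) + 1) := by
    rw [prod_add_one]
  have h2 : ∏ w ∈ U, ((if w ∈ M then (1 / 8 : ℝ) else 1) + 1)
      = 2 ^ U.card * (9 / 16) ^ (M ∩ U).card := by
    have e : ∀ w, ((if w ∈ M then (1 / 8 : ℝ) else 1) + 1)
        = 2 * (if w ∈ M then (9 / 16 : ℝ) else 1) := by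
      intro w; by_cases hw : w ∈ M
      · simp only [hw, if_true]; norm_num
      · simp only [hw, if_false]; norm_num
    simp_rw [e]
    rw [prod_mul_distrib, prod_const, prod_ite, prod_const_one, mul_one, prod_const]
    congr 3
    ext w; simp only [mem_filter, mem_inter]; tauto
  have h3 : ∀ W, ∏ w ∈ W, (if w ∈ M then (1 / 8 : ℝ) else 1) = (1 / 8) ^ (M ∩ W).card := by
    intro W
    rw [prod_ite, prod_const_one, mul_one, prod_const]
    congr 2
    ext w; simp only [mem_filter, mem_inter]; tauto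
  have h4 : (cnt U (fun W => (M ∩ W).card < s) : ℝ) * (1 / 8) ^ s
      ≤ ∑ W ∈ U.powerset, ∏ w ∈ W, (if w ∈ M then (1 / 8 : ℝ) else 1) := by
    have h0 : (cnt U (fun W => (M ∩ W).card < s) : ℝ) * (1 / 8) ^ s
        = ∑ W ∈ cset U (fun W => (M ∩ W).card < s), (1 / 8 : ℝ) ^ s := by
      rw [sum_const, nsmul_eq_mul, cnt_cset]
    rw [h0]
    calc ∑ W ∈ cset U (fun W => (M ∩ W).card < s), (1 / 8 : ℝ) ^ s
        ≤ ∑ W ∈ cset U (fun W => (M ∩ W).card < s),
            ∏ w ∈ W, (if w ∈ M then (1 / 8 : ℝ) else 1) := by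
          apply sum_le_sum
          intro W hW
          rw [mem_cset] at hW
          rw [h3]
          exact pow_le_pow_of_le_one (by norm_num) (by norm_num) hW.2.le
      _ ≤ ∑ W ∈ U.powerset, ∏ w ∈ W, (if w ∈ M then (1 / 8 : ℝ) else 1) := by
          apply sum_le_sum_of_subset_of_nonneg
          · intro W hW
            rw [mem_cset] at hW
            rw [mem_powerset]; exact hW.1
          · intro W _ _
            rw [h3]; positivity
  rw [h1, h2] at h4
  have h5 : (0 : ℝ) < (1 / 8) ^ s := by positivity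
  have h6 : (8 : ℝ) ^ s * (1 / 8) ^ s = 1 := by rw [← mul_pow]; norm_num
  calc (cnt U (fun W => (M ∩ W).card < s) : ℝ)
      = (cnt U (fun W => (M ∩ W).card < s) : ℝ) * (1 / 8) ^ s * 8 ^ s := by
        rw [mul_assoc, mul_comm ((1 / 8 : ℝ) ^ s), h6, mul_one]
    _ ≤ 2 ^ U.card * (9 / 16) ^ (M ∩ U).card * 8 ^ s := by gcongr
    _ = _ := by ring

end Pool.H41.TC
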