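import Pool.Agent.H41.TC.Step
import Pool.Agent.H41.TC.Lll

/-! Two subdigraphs of large minimum outdegree that can meet only in a tiny part of the set of
vertices of exponentially large indegree. -/

namespace Pool.H41.TC

open Finset Classical

variable {V : Type} [Fintype V]

omit [Fintype V] in
theorem cnt_compl (U : Finset V) (P : Finset V → Prop) :
    cnt U (fun W => P (U \ W)) = cnt U P := by
  rw [cnt_cset, cnt_cset]
  refine card_nbij' (fun W => U \ W) (fun W => U \ W) ?_ ?_ ?_ ?_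
  · intro W hW
    rw [mem_coe, mem_cset] at hW ⊢
    exact ⟨sdiff_subset, hW.2⟩
  · intro W hW
    rw [mem_coe, mem_cset] at hW ⊢
    refine ⟨sdiff_subset, ?_⟩
    rw [Finset.sdiff_sdiff_eq_self hW.1]; exact hW.2
  · intro W hW
    rw [mem_coe, mem_cset] at hW
    exact Finset.sdiff_sdiff_eq_self hW.1
  · intro W hW
    rw [mem_coe, mem_cset] at hW
    exact Finset.sdiff_sdiff_eq_self hW.1

theorem num (s : ℕ) (hs : 1 ≤ s) :
    4 * (2 * (8 ^ s * (9 / 16 : ℝ) ^ (27 * s))) * ((100 * s * 512 ^ s : ℕ) : ℝ) ≤ 1 := by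
  obtain ⟨n, rfl⟩ := Nat.exists_eq_add_of_le' hs
  have h1 : (n + 1 : ℝ) ≤ 2 ^ n := by
    have : n + 1 ≤ 2 ^ n := Nat.lt_two_pow_self
    exact_mod_cast this
  have hx : (8 * 512 * (9 / 16 : ℝ) ^ 27) ≤ 1 / 800 := by norm_num
  have hx0 : 0 ≤ (8 * 512 * (9 / 16 : ℝ) ^ 27) := by positivity
  push_cast
  have e : 4 * (2 * (8 ^ (n + 1) * (9 / 16 : ℝ) ^ (27 * (n + 1)))) * (100 * (n + 1) * 512 ^ (n + 1))
      = 800 * ((n + 1) * (8 * 512 * (9 / 16 : ℝ) ^ 27) ^ (n + 1)) := by
    rw [pow_mul, mul_pow, mul_pow]; ring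
  rw [e]
  have h2 : (n + 1 : ℝ) * (8 * 512 * (9 / 16 : ℝ) ^ 27) ^ (n + 1) ≤ 1 / 800 := by
    calc (n + 1 : ℝ) * (8 * 512 * (9 / 16 : ℝ) ^ 27) ^ (n + 1)
        ≤ 2 ^ n * (8 * 512 * (9 / 16 : ℝ) ^ 27) ^ (n + 1) := by gcongr
      _ = (2 * (8 * 512 * (9 / 16 : ℝ) ^ 27)) ^ n * (8 * 512 * (9 / 16 : ℝ) ^ 27) := by
          rw [pow_succ, mul_pow 2]; ring
      _ ≤ 1 ^ n * (1 / 800) := by
          gcongr
          linarith
      _ = 1 / 800 := by rw [one_pow, one_mul]
  linarith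

theorem hubs [Nonempty V] (N : V → Finset V) (s : ℕ) (hs : 1 ≤ s)
    (hN : ∀ x, (N x).card = 100 * s) (H : Finset V)
    (hH : ∀ w, w ∉ H → (univ.filter (fun v => w ∈ N v)).card ≤ 512 ^ s) :
    ∃ C1 C2 : Finset V, C1.Nonempty ∧ C2.Nonempty ∧ C1 ∪ C2 = univ ∧
      (∀ x ∈ C1, s ≤ (N x ∩ C1).card) ∧ (∀ x ∈ C2, s ≤ (N x ∩ C2).card) ∧
      C1 ∩ C2 ⊆ H ∧ 1024 ^ s * (C1 ∩ C2).card ≤ 6 * H.card := by
  obtain ⟨C1, C2, hn1, hn2, hun, hc1, hc2, hcd⟩ := two_cores N (28 * s - 1) (5 * s) (by omega)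
    (by intro x; rw [hN x]; omega) H
  have hc1' : ∀ x ∈ C1, 28 * s ≤ (N x ∩ C1).card := fun x hx => by
    have := hc1 x hx; omega
  have hc2' : ∀ x ∈ C2, 28 * s ≤ (N x ∩ C2).card := fun x hx => by
    have := hc2 x hx; omega
  obtain ⟨U, hU⟩ : ∃ U, U = (C1 ∩ C2) \ H := ⟨_, rfl⟩
  have hU1 : U ⊆ C1 := by rw [hU]; exact sdiff_subset.trans inter_subset_left
  have hU2 : U ⊆ C2 := by rw [hU]; exact sdiff_subset.trans inter_subset_right
  obtain ⟨W, hWU, hW⟩ := lll U univ
    (fun v W => (v ∈ C1 ∧ (N v ∩ (C1 \ W)).card < s) ∨ (v ∈ C2 ∧ (N v ∩ (C2 \ (U \ W))).card < s))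
    (fun v => N v ∩ U) (by
      intro v _ W W' hW hW' h
      have e1 : ∀ X, X ⊆ U → N v ∩ (C1 \ X) = (N v ∩ C1) \ (X ∩ (N v ∩ U)) := by
        intro X hX
        ext x
        simp only [mem_inter, mem_sdiff]
        constructor
        · rintro ⟨a, b, c⟩; exact ⟨⟨a, b⟩, fun h => c h.1⟩
        · rintro ⟨⟨a, b⟩, c⟩; exact ⟨a, b, fun h => c ⟨h, a, hX h⟩⟩
      have e2 : ∀ X, X ⊆ U → N v ∩ (C2 \ (U \ X)) = (N v ∩ C2) \ ((N v ∩ U) \ (X ∩ (N v ∩ U))) := by
        intro X hX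
        ext x
        simp only [mem_inter, mem_sdiff]
        constructor
        · rintro ⟨a, b, c⟩
          exact ⟨⟨a, b⟩, fun h => c ⟨h.1.2, fun hx => h.2 ⟨hx, h.1⟩⟩⟩
        · rintro ⟨⟨a, b⟩, c⟩
          exact ⟨a, b, fun h => c ⟨⟨a, h.1⟩, fun hx => h.2 hx.1⟩⟩
      rw [e1 W hW, e1 W' hW', e2 W hW, e2 W' hW', h])
    (2 * (8 ^ s * (9 / 16 : ℝ) ^ (27 * s))) (100 * s * 512 ^ s) (by positivity)
    (by
      have : 1 ≤ 512 ^ s := Nat.one_le_pow _ _ (by norm_num)
      nlinarith)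
    (by
      intro v _
      have h1 : (univ.filter (fun j => ¬ Disjoint (N v ∩ U) (N j ∩ U)))
          ⊆ (N v ∩ U).biUnion (fun w => univ.filter (fun j => w ∈ N j)) := by
        intro j hj
        rw [mem_filter, not_disjoint_iff] at hj
        obtain ⟨_, w, hw1, hw2⟩ := hj
        rw [mem_biUnion]
        exact ⟨w, hw1, mem_filter.2 ⟨mem_univ _, (mem_inter.1 hw2).1⟩⟩
      refine (card_le_card h1).trans ?_
      refine card_biUnion_le.trans ?_
      have h2 : ∀ w ∈ N v ∩ U, (univ.filter (fun j => w ∈ N j)).card ≤ 512 ^ s := by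
        intro w hw
        apply hH
        have := (mem_inter.1 hw).2
        rw [hU, mem_sdiff] at this
        exact this.2
      refine (sum_le_sum h2).trans ?_
      rw [sum_const, smul_eq_mul]
      have h3 : (N v ∩ U).card ≤ 100 * s := by
        rw [← hN v]; exact card_le_card inter_subset_left
      gcongr)
    (by
      intro v _
      have hmain : ∀ C, U ⊆ C → 28 * s ≤ (N v ∩ C).card → ∀ P : Finset V → Prop,
          (∀ W, W ⊆ U → P W → (N v ∩ (C \ U)).card < s ∧ ((N v ∩ U) ∩ W).card < s) →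
          (cnt U P : ℝ) ≤ 2 ^ U.card * (8 ^ s * (9 / 16) ^ (27 * s)) := by
        intro C hUC h28 P hP
        by_cases ha : (N v ∩ (C \ U)).card < s
        · have hb : 27 * s ≤ (N v ∩ U).card := by
            have e : N v ∩ C = N v ∩ (C \ U) ∪ N v ∩ U := by
              ext x
              simp only [mem_inter, mem_union, mem_sdiff]
              constructor
              · rintro ⟨a, b⟩
                by_cases hx : x ∈ U
                · exact Or.inr ⟨a, hx⟩
                · exact Or.inl ⟨a, b, hx⟩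
              · rintro (⟨a, b, _⟩ | ⟨a, b⟩)
                · exact ⟨a, b⟩
                · exact ⟨a, hUC b⟩
            have := card_union_le (N v ∩ (C \ U)) (N v ∩ U)
            rw [← e] at this
            omega
          have h1 := few U (N v ∩ U) s
          have h2 : cnt U P ≤ cnt U (fun W => ((N v ∩ U) ∩ W).card < s) :=
            cnt_mono U _ _ (fun W hW h => (hP W hW h).2)
          have e3 : N v ∩ U ∩ U = N v ∩ U := by rw [inter_assoc, inter_self]
          rw [e3] at h1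
          calc (cnt U P : ℝ) ≤ cnt U (fun W => ((N v ∩ U) ∩ W).card < s) := by exact_mod_cast h2
            _ ≤ 2 ^ U.card * (8 ^ s * (9 / 16) ^ (N v ∩ U).card) := h1
            _ ≤ 2 ^ U.card * (8 ^ s * (9 / 16) ^ (27 * s)) := by
                have : (9 / 16 : ℝ) ^ (N v ∩ U).card ≤ (9 / 16) ^ (27 * s) :=
                  pow_le_pow_of_le_one (by norm_num) (by norm_num) hb
                gcongr
        · have h0 : cnt U P = 0 := by
            rw [cnt_cset, card_eq_zero, eq_empty_iff_forall_notMem]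
            intro W hW
            rw [mem_cset] at hW
            exact ha (hP W hW.1 hW.2).1
          rw [h0, Nat.cast_zero]; positivity
      have hA : (cnt U (fun W => v ∈ C1 ∧ (N v ∩ (C1 \ W)).card < s) : ℝ)
          ≤ 2 ^ U.card * (8 ^ s * (9 / 16) ^ (27 * s)) := by
        by_cases hv : v ∈ C1
        · rw [← cnt_compl]
          refine hmain C1 hU1 (hc1' v hv) _ ?_
          rintro W hW ⟨_, h⟩
          constructor
          · refine lt_of_le_of_lt (card_le_card ?_) h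
            apply inter_subset_inter (subset_refl _)
            exact sdiff_subset_sdiff (subset_refl _) sdiff_subset
          · refine lt_of_le_of_lt (card_le_card ?_) h
            intro x hx
            simp only [mem_inter, mem_sdiff] at hx ⊢
            exact ⟨hx.1.1, hU1 hx.1.2, fun hc => hc.2 hx.2⟩
        · have h0 : cnt U (fun W => v ∈ C1 ∧ (N v ∩ (C1 \ W)).card < s) = 0 := by
            rw [cnt_cset, card_eq_zero, eq_empty_iff_forall_notMem]
            intro W hW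
            rw [mem_cset] at hW
            exact hv hW.2.1
          rw [h0, Nat.cast_zero]; positivity
      have hB : (cnt U (fun W => v ∈ C2 ∧ (N v ∩ (C2 \ (U \ W))).card < s) : ℝ)
          ≤ 2 ^ U.card * (8 ^ s * (9 / 16) ^ (27 * s)) := by
        by_cases hv : v ∈ C2
        · refine hmain C2 hU2 (hc2' v hv) _ ?_
          rintro W hW ⟨_, h⟩
          constructor
          · refine lt_of_le_of_lt (card_le_card ?_) h
            apply inter_subset_inter (subset_refl _)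
            exact sdiff_subset_sdiff (subset_refl _) sdiff_subset
          · refine lt_of_le_of_lt (card_le_card ?_) h
            intro x hx
            simp only [mem_inter, mem_sdiff] at hx ⊢
            exact ⟨hx.1.1, hU2 hx.1.2, fun hc => hc.2 hx.2⟩
        · have h0 : cnt U (fun W => v ∈ C2 ∧ (N v ∩ (C2 \ (U \ W))).card < s) = 0 := by
            rw [cnt_cset, card_eq_zero, eq_empty_iff_forall_notMem]
            intro W hW
            rw [mem_cset] at hW
            exact hv hW.2.1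
          rw [h0, Nat.cast_zero]; positivity
      have hsub : cnt U (fun W => (v ∈ C1 ∧ (N v ∩ (C1 \ W)).card < s) ∨
          (v ∈ C2 ∧ (N v ∩ (C2 \ (U \ W))).card < s))
          ≤ cnt U (fun W => v ∈ C1 ∧ (N v ∩ (C1 \ W)).card < s) +
            cnt U (fun W => v ∈ C2 ∧ (N v ∩ (C2 \ (U \ W))).card < s) := by
        rw [cnt_cset, cnt_cset, cnt_cset]
        refine le_trans (card_le_card ?_) (card_union_le _ _)
        intro W hW
        rw [mem_cset] at hW
        rw [mem_union, mem_cset, mem_cset]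
        rcases hW.2 with h | h
        · exact Or.inl ⟨hW.1, h⟩
        · exact Or.inr ⟨hW.1, h⟩
      have hsub' : (cnt U (fun W => (v ∈ C1 ∧ (N v ∩ (C1 \ W)).card < s) ∨
          (v ∈ C2 ∧ (N v ∩ (C2 \ (U \ W))).card < s)) : ℝ)
          ≤ cnt U (fun W => v ∈ C1 ∧ (N v ∩ (C1 \ W)).card < s) +
            cnt U (fun W => v ∈ C2 ∧ (N v ∩ (C2 \ (U \ W))).card < s) := by
        exact_mod_cast hsub
      linarith)
    (num s hs)
  have hW' : ∀ v, ¬ ((v ∈ C1 ∧ (N v ∩ (C1 \ W)).card < s) ∨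
      (v ∈ C2 ∧ (N v ∩ (C2 \ (U \ W))).card < s)) := fun v => hW v (mem_univ v)
  have g1 : ∀ v ∈ C1, s ≤ (N v ∩ (C1 \ W)).card := by
    intro v hv
    by_contra hlt
    exact hW' v (Or.inl ⟨hv, by omega⟩)
  have g2 : ∀ v ∈ C2, s ≤ (N v ∩ (C2 \ (U \ W))).card := by
    intro v hv
    by_contra hlt
    exact hW' v (Or.inr ⟨hv, by omega⟩)
  refine ⟨C1 \ W, C2 \ (U \ W), ?_, ?_, ?_, ?_, ?_, ?_, ?_⟩
  · obtain ⟨v, hv⟩ := hn1
    obtain ⟨y, hy⟩ := card_pos.1 (lt_of_lt_of_le hs (g1 v hv))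
    exact ⟨y, (mem_inter.1 hy).2⟩
  · obtain ⟨v, hv⟩ := hn2
    obtain ⟨y, hy⟩ := card_pos.1 (lt_of_lt_of_le hs (g2 v hv))
    exact ⟨y, (mem_inter.1 hy).2⟩
  · rw [eq_univ_iff_forall]
    intro x
    have hx : x ∈ C1 ∪ C2 := by rw [hun]; exact mem_univ x
    rw [mem_union] at hx
    rw [mem_union, mem_sdiff, mem_sdiff, mem_sdiff]
    by_cases hxW : x ∈ W
    · exact Or.inr ⟨hU2 (hWU hxW), fun h => h.2 hxW⟩
    · by_cases hx1 : x ∈ C1
      · exact Or.inl ⟨hx1, hxW⟩
      · exact Or.inr ⟨hx.resolve_left hx1, fun h => hx1 (hU1 h.1)⟩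
  · intro x hx
    exact g1 x (mem_sdiff.1 hx).1
  · intro x hx
    exact g2 x (mem_sdiff.1 hx).1
  · intro x hx
    rw [mem_inter, mem_sdiff, mem_sdiff, mem_sdiff] at hx
    by_contra hxH
    have hxU : x ∈ U := by
      rw [hU, mem_sdiff, mem_inter]
      exact ⟨⟨hx.1.1, hx.2.1⟩, hxH⟩
    exact hx.2.2 ⟨hxU, hx.1.2⟩
  · have e : (4 : ℕ) ^ (5 * s) = 1024 ^ s := by rw [pow_mul]; norm_num
    rw [e] at hcd
    refine le_trans (Nat.mul_le_mul_left _ (card_le_card ?_)) hcd
    intro x hx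
    rw [mem_inter, mem_sdiff, mem_sdiff, mem_sdiff] at hx
    rw [mem_inter, mem_inter]
    refine ⟨⟨?_, hx.1.1⟩, hx.2.1⟩
    by_contra hxH
    have hxU : x ∈ U := by
      rw [hU, mem_sdiff, mem_inter]
      exact ⟨⟨hx.1.1, hx.2.1⟩, hxH⟩
    exact hx.2.2 ⟨hxU, hx.1.2⟩

end Pool.H41.TC
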