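import Pool.Agent.H41.TC.Step

/-! A subdigraph of large minimum outdegree with few vertices in each of finitely many sets. -/

namespace Pool.H41.TC

open Finset Classical

variable {V : Type} [Fintype V]

theorem half [Nonempty V] (N : V → Finset V) (σ : ℕ)
    (hN : ∀ x, 3 * σ + 9 ≤ (N x).card) (A : Finset V) :
    ∃ C : Finset V, C.Nonempty ∧ (∀ x ∈ C, σ + 1 ≤ (N x ∩ C).card) ∧
      5 * (A ∩ C).card ≤ 3 * A.card := by
  obtain ⟨C1, C2, h1, h2, h3, h4, h5, h6⟩ := two_cores N σ 3 (by omega) (by simpa using hN) A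
  have e1 : (A ∩ C1 ∪ A ∩ C2).card + ((A ∩ C1) ∩ (A ∩ C2)).card
      = (A ∩ C1).card + (A ∩ C2).card := card_union_add_card_inter _ _
  have e2 : A ∩ C1 ∪ A ∩ C2 = A := by
    rw [← inter_union_distrib_left, h3, inter_univ]
  have e3 : (A ∩ C1) ∩ (A ∩ C2) = A ∩ C1 ∩ C2 := by
    ext x; simp only [mem_inter]; tauto
  rw [e2, e3] at e1
  have h6' : 64 * (A ∩ C1 ∩ C2).card ≤ 6 * A.card := by
    have e : (4 : ℕ) ^ 3 = 64 := by norm_num
    rw [e] at h6; exact h6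
  rcases le_total (A ∩ C1).card (A ∩ C2).card with h | h
  · exact ⟨C1, h1, h4, by omega⟩
  · exact ⟨C2, h2, h5, by omega⟩

theorem half_rel (N : V → Finset V) (σ : ℕ) (W : Finset V) (hW : W.Nonempty)
    (hN : ∀ x ∈ W, 3 * σ + 9 ≤ (N x ∩ W).card) (A : Finset V) :
    ∃ C : Finset V, C ⊆ W ∧ C.Nonempty ∧ (∀ x ∈ C, σ + 1 ≤ (N x ∩ C).card) ∧
      5 * (A ∩ C).card ≤ 3 * (A ∩ W).card := by
  obtain ⟨w0, hw0⟩ := hW
  have : Nonempty V := ⟨w0⟩
  have h1 : ∀ x, 3 * σ + 9 ≤ ((fun x => if x ∈ W then N x ∩ W else N w0 ∩ W) x).card := by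
    intro x
    by_cases hx : x ∈ W
    · simp only [hx, if_true]; exact hN x hx
    · simp only [hx, if_false]; exact hN w0 hw0
  obtain ⟨C, hC1, hC2, hC3⟩ := half _ σ h1 (A ∩ W)
  refine ⟨C ∩ W, inter_subset_right, ?_, ?_, ?_⟩
  · obtain ⟨x, hx⟩ := hC1
    have h2 := hC2 x hx
    obtain ⟨y, hy⟩ := card_pos.1 (lt_of_lt_of_le (Nat.succ_pos σ) h2)
    rw [mem_inter] at hy
    have hyW : y ∈ W := by
      by_cases hx : x ∈ W
      · simp only [hx, if_true] at hy; exact (mem_inter.1 hy.1).2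
      · simp only [hx, if_false] at hy; exact (mem_inter.1 hy.1).2
    exact ⟨y, mem_inter.2 ⟨hy.2, hyW⟩⟩
  · intro x hx
    rw [mem_inter] at hx
    have h2 := hC2 x hx.1
    simp only [hx.2, if_true] at h2
    have e : N x ∩ W ∩ C = N x ∩ (C ∩ W) := by
      ext y; simp only [mem_inter]; tauto
    rwa [e] at h2
  · have e : A ∩ (C ∩ W) = A ∩ W ∩ C := by
      ext y; simp only [mem_inter]; tauto
    rw [e]; exact hC3

theorem many_one (N : V → Finset V) (s : ℕ) (hs : 1 ≤ s) (A : Finset V) (m : ℕ) :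
    ∀ W : Finset V, W.Nonempty → (∀ x ∈ W, 3 ^ m * (s + 3) ≤ (N x ∩ W).card + 3) →
    ∃ C : Finset V, C ⊆ W ∧ C.Nonempty ∧ (∀ x ∈ C, s ≤ (N x ∩ C).card) ∧
      5 ^ m * (A ∩ C).card ≤ 3 ^ m * (A ∩ W).card := by
  induction m with
  | zero =>
    intro W hW hN
    exact ⟨W, subset_refl _, hW, fun x hx => by have := hN x hx; omega, by simp⟩
  | succ m ih =>
    intro W hW hN
    have hp : 1 ≤ 3 ^ m := Nat.one_le_pow _ _ (by norm_num)
    have hp2 : 4 ≤ 3 ^ m * (s + 3) := by nlinarith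
    obtain ⟨C, hCW, hC, hC2, hC3⟩ := half_rel N (3 ^ m * (s + 3) - 4) W hW (by
      intro x hx
      have := hN x hx
      rw [pow_succ] at this
      have e : 3 ^ m * 3 * (s + 3) = 3 * (3 ^ m * (s + 3)) := by ring
      rw [e] at this
      omega) A
    obtain ⟨C', h1, h2, h3, h4⟩ := ih C hC (by
      intro x hx
      have := hC2 x hx
      omega)
    refine ⟨C', h1.trans hCW, h2, h3, ?_⟩
    calc 5 ^ (m + 1) * (A ∩ C').card = 5 * (5 ^ m * (A ∩ C').card) := by ring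
      _ ≤ 5 * (3 ^ m * (A ∩ C).card) := by gcongr
      _ = 3 ^ m * (5 * (A ∩ C).card) := by ring
      _ ≤ 3 ^ m * (3 * (A ∩ W).card) := by gcongr
      _ = 3 ^ (m + 1) * (A ∩ W).card := by ring

theorem many (N : V → Finset V) (s : ℕ) (hs : 1 ≤ s) (m : ℕ) (L : ℕ) :
    ∀ (A : Fin L → Finset V) (W : Finset V), W.Nonempty →
      (∀ x ∈ W, 3 ^ (m * L) * (s + 3) ≤ (N x ∩ W).card + 3) →
    ∃ C : Finset V, C ⊆ W ∧ C.Nonempty ∧ (∀ x ∈ C, s ≤ (N x ∩ C).card) ∧
      ∀ i, 5 ^ m * (A i ∩ C).card ≤ 3 ^ m * (A i ∩ W).card := by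
  induction L with
  | zero =>
    intro A W hW hN
    exact ⟨W, subset_refl _, hW, fun x hx => by have := hN x hx; simp at this; omega,
      fun i => i.elim0⟩
  | succ L ih =>
    intro A W hW hN
    have hp : 1 ≤ 3 ^ (m * L) := Nat.one_le_pow _ _ (by norm_num)
    have hp2 : 4 ≤ 3 ^ (m * L) * (s + 3) := by nlinarith
    obtain ⟨C, hCW, hC, hC2, hC3⟩ := many_one N (3 ^ (m * L) * (s + 3) - 3) (by omega) (A 0) m W hW
      (by
        intro x hx
        have := hN x hx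
        have e : 3 ^ m * (3 ^ (m * L) * (s + 3) - 3 + 3) = 3 ^ (m * (L + 1)) * (s + 3) := by
          rw [Nat.sub_add_cancel (by omega), show m * (L + 1) = m * L + m by ring, pow_add]; ring
        rw [e]; exact this)
    obtain ⟨C', h1, h2, h3, h4⟩ := ih (fun i => A i.succ) C hC (by
      intro x hx
      have := hC2 x hx
      omega)
    refine ⟨C', h1.trans hCW, h2, h3, ?_⟩
    intro i
    refine Fin.cases ?_ ?_ i
    · refine le_trans ?_ hC3
      gcongr
    · intro j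
      refine (h4 j).trans ?_
      gcongr

end Pool.H41.TC
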