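import Pool.Agent.H41.TC.Clo

/-! Two subdigraphs of large minimum outdegree which cover everything and are almost disjoint
on a given set of vertices. -/

namespace Pool.H41.TC

open Finset Classical

variable {V : Type} [Fintype V]

omit [Fintype V] in
theorem cost_compl (A : Finset V) (f : Finset V → ℝ) :
    ∑ B ∈ A.powerset, f (A \ B) = ∑ B ∈ A.powerset, f B := by
  refine sum_nbij' (fun B => A \ B) (fun B => A \ B) ?_ ?_ ?_ ?_ ?_
  · intro B _; rw [mem_powerset]; exact sdiff_subset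
  · intro B _; rw [mem_powerset]; exact sdiff_subset
  · intro B hB; exact Finset.sdiff_sdiff_eq_self (mem_powerset.1 hB)
  · intro B hB; exact Finset.sdiff_sdiff_eq_self (mem_powerset.1 hB)
  · intro B _; rfl

theorem not_kil_card (N : V → Finset V) (σ : ℕ) (A B : Finset V) (x : V)
    (h : ¬ Kil N σ A x B) : σ + 1 ≤ (N x ∩ (univ \ cl N σ A B)).card := by
  unfold Kil at h
  have e : N x ∩ (univ \ cl N σ A B) = N x \ cl N σ A B := by
    ext y; simp only [mem_inter, mem_sdiff, mem_univ, true_and]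
  rw [e]; omega

theorem core_of (N : V → Finset V) (σ : ℕ) (A B : Finset V)
    (h : ∀ x ∈ A, x ∉ B → ¬ Kil N σ A x B) (x : V) (hx : x ∈ univ \ cl N σ A B) :
    σ + 1 ≤ (N x ∩ (univ \ cl N σ A B)).card := by
  apply not_kil_card
  have hx' : x ∉ cl N σ A B := (mem_sdiff.1 hx).2
  by_cases hxA : x ∈ A
  · exact h x hxA (fun hxB => hx' (subset_cl N σ A B hxB))
  · exact fun hk => hx' (cl_closed N σ A B x hxA hk)

theorem kil_of_cl (N : V → Finset V) (σ : ℕ) (A B : Finset V) (x : V)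
    (hx : x ∈ cl N σ A B) (hxB : x ∉ B) : Kil N σ A x B := by
  obtain ⟨n, hn⟩ := (mem_cl N σ A B x).1 hx
  obtain ⟨_, m, _, hm⟩ := Zs_term N σ A B n x hn hxB
  refine (card_le_card (sdiff_subset_sdiff (subset_refl _) ?_)).trans hm
  intro y hy
  exact (mem_cl N σ A B y).2 ⟨m, hy⟩

theorem two_cores [Nonempty V] (N : V → Finset V) (σ t : ℕ) (ht : 1 ≤ t)
    (hN : ∀ x, 3 * σ + 3 * t ≤ (N x).card) (A : Finset V) :
    ∃ C1 C2 : Finset V, C1.Nonempty ∧ C2.Nonempty ∧ C1 ∪ C2 = univ ∧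
      (∀ x ∈ C1, σ + 1 ≤ (N x ∩ C1).card) ∧ (∀ x ∈ C2, σ + 1 ≤ (N x ∩ C2).card) ∧
      4 ^ t * (A ∩ C1 ∩ C2).card ≤ 6 * A.card := by
  have triv : 4 ^ t * A.card ≤ 6 * A.card → ∃ C1 C2 : Finset V, C1.Nonempty ∧ C2.Nonempty ∧
      C1 ∪ C2 = univ ∧
      (∀ x ∈ C1, σ + 1 ≤ (N x ∩ C1).card) ∧ (∀ x ∈ C2, σ + 1 ≤ (N x ∩ C2).card) ∧
      4 ^ t * (A ∩ C1 ∩ C2).card ≤ 6 * A.card := by
    intro h
    have h1 : ∀ x ∈ (univ : Finset V), σ + 1 ≤ (N x ∩ univ).card := by
      intro x _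
      rw [inter_univ]
      have := hN x
      omega
    exact ⟨univ, univ, univ_nonempty, univ_nonempty, by simp, h1, h1, by simpa using h⟩
  rcases A.eq_empty_or_nonempty with hA | hA
  · exact triv (by rw [hA]; simp)
  rcases Nat.lt_or_ge t 2 with ht2 | ht2
  · have : t = 1 := by omega
    subst this
    exact triv (by omega)
  obtain ⟨r0⟩ := (inferInstance : Nonempty V)
  have hApos : (0 : ℝ) < A.card := by exact_mod_cast card_pos.2 hA
  have h4t : (16 : ℝ) ≤ 4 ^ t := by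
    calc (16 : ℝ) = 4 ^ 2 := by norm_num
      _ ≤ 4 ^ t := pow_le_pow_right₀ (by norm_num) ht2
  have hT : (0 : ℝ) < 4 ^ t := by positivity
  have hN' : ∀ x, 3 * σ + 3 * t ≤ (N x).card := hN
  -- costs
  obtain ⟨c, hc⟩ : ∃ c : V → Finset V → ℝ,
      c = fun r B => (cost (Fintype.card V) (Kil N σ A r) B : ℝ) := ⟨_, rfl⟩
  have hc0 : ∀ r B, 0 ≤ c r B := by intro r B; rw [hc]; exact Nat.cast_nonneg _
  have hsum : ∀ r, ∑ B ∈ A.powerset, c r B ≤ 4 * 2 ^ A.card / (3 * 4 ^ t) := by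
    intro r
    rw [le_div_iff₀ (by positivity), hc]
    exact cost_sum A t ht _ (kil_mono N σ A r) (kil_crs N σ (3 * t) A hN' r) _
  have hsum2 : ∀ r, ∑ B ∈ A.powerset, (c r B + c r (A \ B)) ≤ 2 * (4 * 2 ^ A.card / (3 * 4 ^ t)) := by
    intro r
    rw [sum_add_distrib, cost_compl A (fun B => c r B)]
    have := hsum r
    linarith
  have htot : ∑ B ∈ A.powerset, ((∑ r ∈ A, (c r B + c r (A \ B))) +
      A.card * (c r0 B + c r0 (A \ B))) ≤ ∑ B ∈ A.powerset, (16 * A.card / (3 * 4 ^ t) : ℝ) := by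
    rw [sum_add_distrib, sum_comm, ← mul_sum, sum_const, card_powerset, nsmul_eq_mul]
    have h1 : ∑ r ∈ A, ∑ B ∈ A.powerset, (c r B + c r (A \ B))
        ≤ ∑ r ∈ A, 2 * (4 * 2 ^ A.card / (3 * 4 ^ t) : ℝ) := sum_le_sum fun r _ => hsum2 r
    rw [sum_const, nsmul_eq_mul] at h1
    have h2 := hsum2 r0
    have h3 : (A.card : ℝ) * ∑ B ∈ A.powerset, (c r0 B + c r0 (A \ B))
        ≤ A.card * (2 * (4 * 2 ^ A.card / (3 * 4 ^ t))) := by gcongr
    push_cast
    calc _ ≤ (A.card : ℝ) * (2 * (4 * 2 ^ A.card / (3 * 4 ^ t)))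
          + A.card * (2 * (4 * 2 ^ A.card / (3 * 4 ^ t))) := add_le_add h1 h3
      _ = 2 ^ A.card * (16 * A.card / (3 * 4 ^ t)) := by ring
  obtain ⟨B, hB, hBle⟩ := exists_le_of_sum_le ⟨∅, empty_mem_powerset A⟩ htot
  rw [mem_powerset] at hB
  have hle : ((∑ r ∈ A, (c r B + c r (A \ B))) + A.card * (c r0 B + c r0 (A \ B))) * (3 * 4 ^ t)
      ≤ 16 * A.card := by
    rw [le_div_iff₀ (by positivity)] at hBle
    exact hBle
  have hS0 : 0 ≤ ∑ r ∈ A, (c r B + c r (A \ B)) :=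
    sum_nonneg fun r _ => add_nonneg (hc0 _ _) (hc0 _ _)
  have hr0 : c r0 B = 0 ∧ c r0 (A \ B) = 0 := by
    have h1 : (A.card : ℝ) * (c r0 B + c r0 (A \ B)) * (3 * 16) ≤ 16 * A.card := by
      have h2 : (A.card : ℝ) * (c r0 B + c r0 (A \ B)) * (3 * 16)
          ≤ ((∑ r ∈ A, (c r B + c r (A \ B))) + A.card * (c r0 B + c r0 (A \ B))) * (3 * 4 ^ t) := by
        have h3 : 0 ≤ (A.card : ℝ) * (c r0 B + c r0 (A \ B)) :=
          mul_nonneg hApos.le (add_nonneg (hc0 _ _) (hc0 _ _))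
        gcongr
        linarith
      linarith
    have h4 : c r0 B + c r0 (A \ B) ≤ 1 / 3 := by
      by_contra hne
      push Not at hne
      have := mul_lt_mul_of_pos_left hne hApos
      linarith
    have a1 := hc0 r0 B
    have a2 := hc0 r0 (A \ B)
    have b1 : cost (Fintype.card V) (Kil N σ A r0) B < 1 := by
      have : c r0 B < 1 := by linarith
      rw [hc] at this
      beta_reduce at this
      exact_mod_cast this
    have b2 : cost (Fintype.card V) (Kil N σ A r0) (A \ B) < 1 := by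
      have : c r0 (A \ B) < 1 := by linarith
      rw [hc] at this
      beta_reduce at this
      exact_mod_cast this
    rw [hc]
    constructor
    · have : cost (Fintype.card V) (Kil N σ A r0) B = 0 := by omega
      show ((cost (Fintype.card V) (Kil N σ A r0) B : ℕ) : ℝ) = 0
      rw [this]; simp
    · have : cost (Fintype.card V) (Kil N σ A r0) (A \ B) = 0 := by omega
      show ((cost (Fintype.card V) (Kil N σ A r0) (A \ B) : ℕ) : ℝ) = 0
      rw [this]; simp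
  -- repairs
  have hrep : ∀ (X : Finset V), X ⊆ A → ∀ r, ∃ Q, Q ⊆ X ∧ (Q.card : ℝ) ≤ c r X ∧
      ¬ Kil N σ A r (X \ Q) := by
    intro X hX r
    obtain ⟨Q, h1, h2, h3⟩ := rep_cost (Fintype.card V) (Kil N σ A r) X
      (kil_M N σ (3 * t) A (by omega) hN' r X hX)
    refine ⟨Q, h1, ?_, h3⟩
    rw [hc]
    beta_reduce
    exact_mod_cast h2
  choose Qm hm1 hm2 hm3 using hrep B hB
  choose Qp hp1 hp2 hp3 using hrep (A \ B) sdiff_subset
  obtain ⟨B1, hB1⟩ : ∃ B1, B1 = B \ A.biUnion Qm := ⟨_, rfl⟩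
  obtain ⟨B2, hB2⟩ : ∃ B2, B2 = (A \ B) \ A.biUnion Qp := ⟨_, rfl⟩
  have k1 : ∀ x ∈ A, ¬ Kil N σ A x B1 := by
    intro x hx hk
    refine hm3 x (kil_mono N σ A x _ _ ?_ hk)
    rw [hB1]
    exact sdiff_subset_sdiff (subset_refl _) (subset_biUnion_of_mem Qm hx)
  have k2 : ∀ x ∈ A, ¬ Kil N σ A x B2 := by
    intro x hx hk
    refine hp3 x (kil_mono N σ A x _ _ ?_ hk)
    rw [hB2]
    exact sdiff_subset_sdiff (subset_refl _) (subset_biUnion_of_mem Qp hx)
  have k01 : ¬ Kil N σ A r0 B1 := by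
    intro hk
    refine hm3 r0 (kil_mono N σ A r0 _ _ ?_ hk)
    have : Qm r0 = ∅ := by
      have h := hm2 r0
      rw [hr0.1] at h
      have h' : (Qm r0).card ≤ 0 := by exact_mod_cast h
      exact card_eq_zero.1 (by omega)
    rw [this, sdiff_empty, hB1]
    exact sdiff_subset
  have k02 : ¬ Kil N σ A r0 B2 := by
    intro hk
    refine hp3 r0 (kil_mono N σ A r0 _ _ ?_ hk)
    have : Qp r0 = ∅ := by
      have h := hp2 r0
      rw [hr0.2] at h
      have h' : (Qp r0).card ≤ 0 := by exact_mod_cast h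
      exact card_eq_zero.1 (by omega)
    rw [this, sdiff_empty, hB2]
    exact sdiff_subset
  have sB1 : B1 ⊆ B := by rw [hB1]; exact sdiff_subset
  have sB2 : B2 ⊆ A \ B := by rw [hB2]; exact sdiff_subset
  refine ⟨univ \ cl N σ A B1, univ \ cl N σ A B2, ?_, ?_, ?_, ?_, ?_, ?_⟩
  · have := not_kil_card N σ A B1 r0 k01
    obtain ⟨y, hy⟩ := card_pos.1 (show 0 < (N r0 ∩ (univ \ cl N σ A B1)).card by omega)
    exact ⟨y, (mem_inter.1 hy).2⟩
  · have := not_kil_card N σ A B2 r0 k02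
    obtain ⟨y, hy⟩ := card_pos.1 (show 0 < (N r0 ∩ (univ \ cl N σ A B2)).card by omega)
    exact ⟨y, (mem_inter.1 hy).2⟩
  · rw [eq_univ_iff_forall]
    intro x
    by_contra hne
    rw [mem_union, mem_sdiff, mem_sdiff] at hne
    push Not at hne
    have h1 := hne.1 (mem_univ x)
    have h2 := hne.2 (mem_univ x)
    by_cases hxA : x ∈ A
    · have h3 := sB1 (cl_term N σ A B1 x h1 hxA)
      have h4 := sB2 (cl_term N σ A B2 x h2 hxA)
      exact (mem_sdiff.1 h4).2 h3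
    · have hx1 : x ∉ B1 := fun h => hxA (hB (sB1 h))
      have hx2 : x ∉ B2 := fun h => hxA ((mem_sdiff.1 (sB2 h)).1)
      have h5 := kil_crs N σ (3 * t) A hN' x B1 B2 B1 (sB1.trans hB)
        (sB2.trans sdiff_subset) (sB1.trans hB) (kil_of_cl N σ A B1 x h1 hx1)
        (kil_of_cl N σ A B2 x h2 hx2) (kil_of_cl N σ A B1 x h1 hx1)
      have h6 : B1 ∩ B2 ∩ B1 = ∅ := by
        rw [eq_empty_iff_forall_notMem]
        intro y hy
        rw [mem_inter, mem_inter] at hy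
        exact (mem_sdiff.1 (sB2 hy.1.2)).2 (sB1 hy.1.1)
      rw [h6, card_empty] at h5
      omega
  · exact core_of N σ A B1 (fun x hx _ => k1 x hx)
  · exact core_of N σ A B2 (fun x hx _ => k2 x hx)
  · have hsub : A ∩ (univ \ cl N σ A B1) ∩ (univ \ cl N σ A B2)
        ⊆ A.biUnion Qm ∪ A.biUnion Qp := by
      intro x hx
      rw [mem_inter, mem_inter, mem_sdiff, mem_sdiff] at hx
      obtain ⟨⟨hxA, _, hx1⟩, _, hx2⟩ := hx
      have y1 : x ∉ B1 := fun h => hx1 (subset_cl N σ A B1 h)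
      have y2 : x ∉ B2 := fun h => hx2 (subset_cl N σ A B2 h)
      rw [mem_union]
      by_cases hxB : x ∈ B
      · left
        by_contra hq
        exact y1 (by rw [hB1, mem_sdiff]; exact ⟨hxB, hq⟩)
      · right
        by_contra hq
        exact y2 (by rw [hB2, mem_sdiff, mem_sdiff]; exact ⟨⟨hxA, hxB⟩, hq⟩)
    have h1 : ((A ∩ (univ \ cl N σ A B1) ∩ (univ \ cl N σ A B2)).card : ℝ)
        ≤ ∑ r ∈ A, (c r B + c r (A \ B)) := by
      calc ((A ∩ (univ \ cl N σ A B1) ∩ (univ \ cl N σ A B2)).card : ℝ)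
          ≤ ((A.biUnion Qm ∪ A.biUnion Qp).card : ℝ) := by exact_mod_cast card_le_card hsub
        _ ≤ ((A.biUnion Qm).card : ℝ) + (A.biUnion Qp).card := by
            exact_mod_cast card_union_le _ _
        _ ≤ (∑ r ∈ A, ((Qm r).card : ℝ)) + ∑ r ∈ A, ((Qp r).card : ℝ) := by
            gcongr
            · exact_mod_cast card_biUnion_le
            · exact_mod_cast card_biUnion_le
        _ ≤ ∑ r ∈ A, (c r B + c r (A \ B)) := by
            rw [sum_add_distrib]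
            exact add_le_add (sum_le_sum fun r _ => hm2 r) (sum_le_sum fun r _ => hp2 r)
    have h2 : (∑ r ∈ A, (c r B + c r (A \ B))) * (3 * 4 ^ t) ≤ 16 * A.card := by
      refine le_trans ?_ hle
      have : 0 ≤ (A.card : ℝ) * (c r0 B + c r0 (A \ B)) :=
        mul_nonneg hApos.le (add_nonneg (hc0 _ _) (hc0 _ _))
      gcongr
      linarith
    have h3 : (4 : ℝ) ^ t * ((A ∩ (univ \ cl N σ A B1) ∩ (univ \ cl N σ A B2)).card : ℝ)
        ≤ 6 * A.card := by
      have h4 : ((A ∩ (univ \ cl N σ A B1) ∩ (univ \ cl N σ A B2)).card : ℝ) * (3 * 4 ^ t)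
          ≤ 16 * A.card := le_trans (by gcongr) h2
      nlinarith
    exact_mod_cast h3

end Pool.H41.TC
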